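import Mathlib

/-!
# Almost isometric operators: the bicommutant and the resolvents

Stronger form of `NotBicommutant`: near EVERY almost isometric operator (in trace norm) there is an
almost isometric operator `T` such that the quotient of the bicommutant of `T` by the closed linear
span `R(T)` of the resolvents is not separable.
-/

open scoped InnerProduct ComplexConjugate
open ContinuousLinearMap Filter Topology InnerProductSpace

namespace Pool.Agent.Results.MP_9e58cf_an.DenseFailure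

section Definitions

variable {H : Type*} [NormedAddCommGroup H] [InnerProductSpace ℂ H]

/-- The trace norm of `A` is at most `C`: `A` is a sum of rank-one operators `a n ⊗ b n` with
`∑ ‖a n‖ ‖b n‖ ≤ C`. -/
def TraceNormLE (A : H →L[ℂ] H) (C : ℝ) : Prop :=
  ∃ a b : ℕ → H, Summable (fun n => ‖a n‖ * ‖b n‖) ∧ ∑' n, ‖a n‖ * ‖b n‖ ≤ C ∧
    ∀ x : H, HasSum (fun n => inner ℂ (b n) x • a n) (A x)

/-- `A` is of trace class: it is a sum of rank-one operators `a n ⊗ b n` with
`∑ ‖a n‖ ‖b n‖ < ∞`. -/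
def TraceClass (A : H →L[ℂ] H) : Prop :=
  ∃ a b : ℕ → H, Summable (fun n => ‖a n‖ * ‖b n‖) ∧
    ∀ x : H, HasSum (fun n => inner ℂ (b n) x • a n) (A x)

variable [CompleteSpace H]

/-- `T` is almost isometric: `1 - T* T` is of trace class. -/
def AlmostIsometric (T : H →L[ℂ] H) : Prop :=
  TraceClass (1 - adjoint T * T)

/-- The resolvents `(T - z)⁻¹`, for `z` outside the spectrum of `T`. -/
def resolvents (T : H →L[ℂ] H) : Set (H →L[ℂ] H) :=
  {R | ∃ z : ℂ, z ∉ spectrum ℂ T ∧ R = Ring.inverse (T - algebraMap ℂ (H →L[ℂ] H) z)}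

/-- The closure, in the weak operator topology, of the linear span of the resolvents. -/
def resolventSpace (T : H →L[ℂ] H) : Set (H →L[ℂ] H) :=
  {S | ContinuousLinearMapWOT.ofCLM S ∈ closure (ContinuousLinearMapWOT.ofCLM ''
    (Submodule.span ℂ (resolvents T) : Set (H →L[ℂ] H)))}

/-- The bicommutant of `T`. -/
def bicommutant (T : H →L[ℂ] H) : Set (H →L[ℂ] H) :=
  Set.centralizer (Set.centralizer {T})

end Definitions

section Part1

variable {H : Type*} [NormedAddCommGroup H] [InnerProductSpace ℂ H]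

lemma TraceNormLE.traceClass {A : H →L[ℂ] H} {C : ℝ} (h : TraceNormLE A C) : TraceClass A := by
  obtain ⟨a, b, h1, -, h3⟩ := h
  exact ⟨a, b, h1, h3⟩

/-- averaging over roots of unity -/
lemma avg_rootsOfUnity (N : ℕ) (hN : 0 < N) (v : ℕ → H) :
    ∃ w : ℂ, ‖w‖ = 1 ∧
      ∑ n ∈ Finset.range N, ‖v n‖ ^ 2 ≤ ‖∑ n ∈ Finset.range N, w ^ n • v n‖ ^ 2 := by
  set ζ : ℂ := Complex.exp (2 * Real.pi * Complex.I / N) with hζ
  have hprim : IsPrimitiveRoot ζ N := Complex.isPrimitiveRoot_exp N hN.ne'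
  have hζN : ζ ^ N = 1 := hprim.pow_eq_one
  have hζn : ‖ζ‖ = 1 := hprim.norm'_eq_one hN.ne'
  have hnorm : ∀ j : ℕ, ‖ζ ^ j‖ = 1 := fun j => by rw [norm_pow, hζn, one_pow]
  have key : ∑ j ∈ Finset.range N, ‖∑ n ∈ Finset.range N, (ζ ^ j) ^ n • v n‖ ^ 2
      = N * ∑ n ∈ Finset.range N, ‖v n‖ ^ 2 := by
    have h1 : ∀ j : ℕ, (((‖∑ n ∈ Finset.range N, (ζ ^ j) ^ n • v n‖ ^ 2 : ℝ)) : ℂ)
        = ∑ m ∈ Finset.range N, ∑ n ∈ Finset.range N,
          (conj (ζ ^ m) * ζ ^ n) ^ j * inner ℂ (v m) (v n) := by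
      intro j
      have h2 := inner_self_eq_norm_sq_to_K (𝕜 := ℂ) (∑ n ∈ Finset.range N, (ζ ^ j) ^ n • v n)
      have h3 : (((‖∑ n ∈ Finset.range N, (ζ ^ j) ^ n • v n‖ ^ 2 : ℝ)) : ℂ) =
          inner ℂ (∑ n ∈ Finset.range N, (ζ ^ j) ^ n • v n)
            (∑ n ∈ Finset.range N, (ζ ^ j) ^ n • v n) := by
        rw [h2]; push_cast; rfl
      rw [h3, sum_inner]
      refine Finset.sum_congr rfl fun m _ => ?_
      rw [inner_sum]
      refine Finset.sum_congr rfl fun n _ => ?_
      rw [inner_smul_left, inner_smul_right, ← mul_assoc]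
      congr 1
      rw [mul_pow, map_pow, map_pow, map_pow, ← pow_mul, ← pow_mul, ← pow_mul, ← pow_mul,
        mul_comm j m, mul_comm j n]
    have h4 : ((∑ j ∈ Finset.range N, ‖∑ n ∈ Finset.range N, (ζ ^ j) ^ n • v n‖ ^ 2 : ℝ) : ℂ)
        = ((N * ∑ n ∈ Finset.range N, ‖v n‖ ^ 2 : ℝ) : ℂ) := by
      rw [Complex.ofReal_sum, Finset.sum_congr rfl (fun j _ => h1 j), Finset.sum_comm]
      push_cast
      rw [Finset.mul_sum]
      refine Finset.sum_congr rfl fun m hm => ?_
      rw [Finset.sum_comm, Finset.sum_eq_single m]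
      · have h5 : conj (ζ ^ m) * ζ ^ m = 1 := by
          rw [mul_comm, Complex.mul_conj, Complex.normSq_eq_norm_sq, hnorm]; simp
        have h2 := inner_self_eq_norm_sq_to_K (𝕜 := ℂ) (v m)
        simp only [h5, one_pow, one_mul, Finset.sum_const, Finset.card_range, nsmul_eq_mul]
        rw [h2]
        simp
      · intro n hn hnm
        rw [← Finset.sum_mul]
        have hμN : (conj (ζ ^ m) * ζ ^ n) ^ N = 1 := by
          rw [mul_pow, ← map_pow, ← pow_mul, ← pow_mul, mul_comm m, mul_comm n, pow_mul, pow_mul,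
            hζN]
          simp
        have hμ : conj (ζ ^ m) * ζ ^ n ≠ 1 := by
          intro h
          apply hnm
          have h6 : ζ ^ m * (conj (ζ ^ m) * ζ ^ n) = ζ ^ n := by
            rw [← mul_assoc, Complex.mul_conj, Complex.normSq_eq_norm_sq, hnorm]; simp
          rw [h, mul_one] at h6
          exact (hprim.pow_inj (Finset.mem_range.1 hm) (Finset.mem_range.1 hn) h6).symm
        have h7 := mul_neg_geom_sum (conj (ζ ^ m) * ζ ^ n) N
        rw [hμN, sub_self] at h7
        rcases mul_eq_zero.1 h7 with h8 | h8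
        · exact absurd (sub_eq_zero.1 h8).symm hμ
        · rw [h8, zero_mul]
      · intro h; exact absurd hm h
    exact_mod_cast h4
  by_contra hcon
  push Not at hcon
  have h1 : ∑ j ∈ Finset.range N, ‖∑ n ∈ Finset.range N, (ζ ^ j) ^ n • v n‖ ^ 2
      < ∑ j ∈ Finset.range N, ∑ n ∈ Finset.range N, ‖v n‖ ^ 2 :=
    Finset.sum_lt_sum_of_nonempty (Finset.nonempty_range_iff.2 hN.ne')
      (fun j _ => hcon (ζ ^ j) (hnorm j))
  rw [key, Finset.sum_const, Finset.card_range, nsmul_eq_mul] at h1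
  exact lt_irrefl _ h1

/-- For `v` orthogonal to finitely many vectors, `D v` is small, if `D` is of trace class. -/
lemma small_of_perp {D : H →L[ℂ] H} (hD : TraceClass D) (η : ℝ) (hη : 0 < η) :
    ∃ F : Finset H, ∀ v : H, (∀ u ∈ F, inner ℂ u v = 0) → ‖D v‖ ≤ η * ‖v‖ := by
  classical
  obtain ⟨a, b, h1, h2⟩ := hD
  have h3 := (h1.hasSum.tendsto_sum_nat.eventually (lt_mem_nhds
    (show ∑' n, ‖a n‖ * ‖b n‖ - η < ∑' n, ‖a n‖ * ‖b n‖ by linarith))).exists
  obtain ⟨m, hm⟩ := h3
  refine ⟨(Finset.range m).image b, fun v hv => ?_⟩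
  have hv' : ∀ n ∈ Finset.range m, inner ℂ (b n) v = 0 := fun n hn =>
    hv _ (Finset.mem_image_of_mem _ hn)
  have h4 : D v = ∑' n, inner ℂ (b (n + m)) v • a (n + m) := by
    have := (h2 v).summable.sum_add_tsum_nat_add m
    rw [(h2 v).tsum_eq] at this
    rw [← this, Finset.sum_eq_zero (fun n hn => by rw [hv' n hn, zero_smul]), zero_add]
  have h5 : Summable (fun n => ‖a (n + m)‖ * ‖b (n + m)‖) :=
    (summable_nat_add_iff m).2 h1
  have h6 : ∑' n, ‖a (n + m)‖ * ‖b (n + m)‖ ≤ η := by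
    have := h1.sum_add_tsum_nat_add m
    linarith
  rw [h4]
  have h7 : ∀ n, ‖inner ℂ (b (n + m)) v • a (n + m)‖ ≤ ‖a (n + m)‖ * ‖b (n + m)‖ * ‖v‖ := by
    intro n
    rw [norm_smul]
    calc _ ≤ (‖b (n + m)‖ * ‖v‖) * ‖a (n + m)‖ :=
          mul_le_mul_of_nonneg_right (norm_inner_le_norm _ _) (norm_nonneg _)
      _ = _ := by ring
  calc _ ≤ ∑' n, ‖a (n + m)‖ * ‖b (n + m)‖ * ‖v‖ :=
        tsum_of_norm_bounded (h5.mul_right _).hasSum h7
    _ = (∑' n, ‖a (n + m)‖ * ‖b (n + m)‖) * ‖v‖ := tsum_mul_right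
    _ ≤ _ := mul_le_mul_of_nonneg_right h6 (norm_nonneg _)

/-- In an infinite-dimensional space there are unit vectors orthogonal to a finite set. -/
lemma exists_perp (hH : ¬ FiniteDimensional ℂ H) (F : Finset H) :
    ∃ v : H, ‖v‖ = 1 ∧ ∀ u ∈ F, inner ℂ u v = 0 := by
  classical
  set U : Submodule ℂ H := Submodule.span ℂ (F : Set H) with hU
  have hfin : FiniteDimensional ℂ U := FiniteDimensional.span_finset ℂ F
  have hne : Uᗮ ≠ ⊥ := by
    intro h
    have h1 : U = ⊤ := (Submodule.orthogonal_eq_bot_iff).1 h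
    rw [h1] at hfin
    exact hH (Submodule.topEquiv.finiteDimensional (K := ℂ))
  obtain ⟨v, hv, hv0⟩ := Submodule.exists_mem_ne_zero_of_ne_bot hne
  refine ⟨((‖v‖ : ℂ)⁻¹) • v, ?_, fun u hu => ?_⟩
  · rw [norm_smul, norm_inv, Complex.norm_real, norm_norm]
    exact inv_mul_cancel₀ (norm_ne_zero_iff.2 hv0)
  · rw [inner_smul_right, (Submodule.mem_orthogonal U v).1 hv u (Submodule.subset_span hu),
      mul_zero]

variable [CompleteSpace H]

lemma norm_T_sq {T : H →L[ℂ] H} (v : H) :
    (‖T v‖ ^ 2 : ℝ) = ‖v‖ ^ 2 - (inner ℂ v ((1 - adjoint T * T) v)).re := by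
  have h1 : inner ℂ v ((1 - adjoint T * T) v) = inner ℂ v v - inner ℂ (T v) (T v) := by
    have : (1 - adjoint T * T) v = v - adjoint T (T v) := rfl
    rw [this, inner_sub_right, adjoint_inner_right]
  rw [h1, Complex.sub_re]
  have h2 := inner_self_eq_norm_sq (𝕜 := ℂ) v
  have h3 := inner_self_eq_norm_sq (𝕜 := ℂ) (T v)
  simp only [RCLike.re_to_complex] at h2 h3
  rw [h2, h3]; ring

/-- approximate joint eigenvectors orthogonal to a given finite set -/
lemma exists_approx (hH : ¬ FiniteDimensional ℂ H) {T : H →L[ℂ] H} (hT : AlmostIsometric T)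
    (F : Finset H) (η : ℝ) (hη : 0 < η) :
    ∃ (w : ℂ) (x : H), ‖w‖ = 1 ∧ ‖x‖ = 1 ∧ (∀ u ∈ F, inner ℂ u x = 0) ∧
      ‖T x - w • x‖ ≤ η ∧ ‖adjoint T x - conj w • x‖ ≤ η := by
  classical
  -- choose N
  obtain ⟨N, hN⟩ := exists_nat_gt ((5 * (1 + ‖T‖) / (η / 2)) ^ 2)
  have hN0 : 0 < N := by
    have : (0 : ℝ) < N := lt_of_le_of_lt (sq_nonneg _) hN
    exact_mod_cast this
  have hNr : (0 : ℝ) < N := by exact_mod_cast hN0
  obtain ⟨η', hη'0, hη'N0, hη'η⟩ : ∃ η' : ℝ, 0 < η' ∧ η' ≤ 1 / (2 * N) ∧ η' ≤ η / 2 :=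
    ⟨min (1 / (2 * N)) (η / 2), lt_min (by positivity) (by positivity), min_le_left _ _,
      min_le_right _ _⟩
  obtain ⟨F1, hF1⟩ := small_of_perp hT η' hη'0
  -- the vectors `T ^ n e`
  obtain ⟨v, hv0, hvs, hperp⟩ : ∃ v : ℕ → H, ‖v 0‖ = 1 ∧ (∀ n, v (n + 1) = T (v n)) ∧
      ∀ n < N + 1, ∀ u ∈ F ∪ F1, inner ℂ u (v n) = 0 := by
    obtain ⟨e, he1, he⟩ := exists_perp hH
      (((Finset.range (N + 1)).product (F ∪ F1)).image (fun p => ((adjoint T) ^ p.1) p.2))
    refine ⟨fun n => (T ^ n) e, by simpa using he1, fun n => by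
      show (T ^ (n + 1)) e = T ((T ^ n) e)
      rw [pow_succ']; rfl, ?_⟩
    intro n hn u hu
    have h1 := he (((adjoint T) ^ n) u) (Finset.mem_image.2
      ⟨(n, u), Finset.mem_product.2 ⟨Finset.mem_range.2 hn, hu⟩, rfl⟩)
    have h2 : (adjoint T) ^ n = adjoint (T ^ n) := by
      rw [← ContinuousLinearMap.star_eq_adjoint, ← ContinuousLinearMap.star_eq_adjoint, star_pow]
    rw [h2, adjoint_inner_left] at h1
    exact h1
  -- norms
  have hD : ∀ p : H, (∀ u ∈ F ∪ F1, inner ℂ u p = 0) → ‖(1 - adjoint T * T) p‖ ≤ η' * ‖p‖ :=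
    fun p hp => hF1 p fun u hu => hp u (Finset.mem_union_right _ hu)
  have hstep : ∀ n < N, ‖v n‖ ^ 2 * (1 - η') ≤ ‖v (n + 1)‖ ^ 2 ∧
      ‖v (n + 1)‖ ^ 2 ≤ ‖v n‖ ^ 2 * (1 + η') := by
    intro n hn
    rw [hvs, norm_T_sq]
    have h2 : |(inner ℂ (v n) ((1 - adjoint T * T) (v n))).re| ≤ η' * ‖v n‖ ^ 2 := by
      calc _ ≤ ‖inner ℂ (v n) ((1 - adjoint T * T) (v n))‖ := Complex.abs_re_le_norm _
        _ ≤ ‖v n‖ * ‖(1 - adjoint T * T) (v n)‖ := norm_inner_le_norm _ _
        _ ≤ ‖v n‖ * (η' * ‖v n‖) := mul_le_mul_of_nonneg_left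
            (hD _ (hperp n (by omega))) (norm_nonneg _)
        _ = _ := by ring
    have h3 := abs_le.1 h2
    constructor <;> nlinarith [h3.1, h3.2]
  have hη'N : η' * N ≤ 1 / 2 := by
    calc η' * N ≤ 1 / (2 * N) * N := mul_le_mul_of_nonneg_right hη'N0 hNr.le
      _ = 1 / 2 := by field_simp
  have hη'1 : η' ≤ 1 / 2 := by
    have h1 : (1 : ℝ) ≤ N := by exact_mod_cast hN0
    nlinarith
  have hlow : ∀ n ≤ N, 1 - n * η' ≤ ‖v n‖ ^ 2 := by
    intro n
    induction n with
    | zero => intro _; simp [hv0]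
    | succ n ih =>
      intro hn
      have h1 := ih (by omega)
      have h2 := (hstep n (by omega)).1
      have h3 : (n : ℝ) * η' ≥ 0 := by positivity
      push_cast
      nlinarith
  have hup : ∀ n ≤ N, ‖v n‖ ^ 2 ≤ 1 + 2 * n * η' := by
    intro n
    induction n with
    | zero => intro _; simp [hv0]
    | succ n ih =>
      intro hn
      have h1 := ih (by omega)
      have h2 := (hstep n (by omega)).2
      have h3 : (n : ℝ) * η' ≤ 1 / 2 := by
        have : (n : ℝ) ≤ N := by exact_mod_cast (by omega : n ≤ N)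
        nlinarith
      push_cast
      nlinarith
  have hlow' : ∀ n ≤ N, 1 / 2 ≤ ‖v n‖ ^ 2 := by
    intro n hn
    have h1 := hlow n hn
    have : (n : ℝ) * η' ≤ 1 / 2 := by
      have : (n : ℝ) ≤ N := by exact_mod_cast hn
      nlinarith
    linarith
  have hupN : ‖v N‖ ≤ 2 := by
    have h1 := hup N le_rfl
    have h2 : ‖v N‖ ^ 2 ≤ 2 := by nlinarith
    nlinarith [norm_nonneg (v N)]
  -- averaging
  obtain ⟨μ, hμ1, hμ⟩ := avg_rootsOfUnity N hN0 v
  have hμ0 : μ ≠ 0 := by rw [← norm_ne_zero_iff, hμ1]; exact one_ne_zero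
  have hw1 : ‖μ⁻¹‖ = 1 := by rw [norm_inv, hμ1, inv_one]
  obtain ⟨X, hX⟩ : ∃ X, X = ∑ n ∈ Finset.range N, μ ^ n • v n := ⟨_, rfl⟩
  rw [← hX] at hμ
  have hXlow : (N : ℝ) / 2 ≤ ‖X‖ ^ 2 := by
    refine le_trans ?_ hμ
    calc (N : ℝ) / 2 = ∑ n ∈ Finset.range N, (1 / 2 : ℝ) := by
          rw [Finset.sum_const, Finset.card_range, nsmul_eq_mul]; ring
      _ ≤ _ := Finset.sum_le_sum fun n hn => hlow' n (Finset.mem_range.1 hn).le
  have hXpos : 0 < ‖X‖ := by
    rcases (norm_nonneg X).lt_or_eq with h | h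
    · exact h
    · rw [← h] at hXlow; norm_num at hXlow; linarith
  have hXperp : ∀ u ∈ F ∪ F1, inner ℂ u X = 0 := by
    intro u hu
    rw [hX, inner_sum]
    refine Finset.sum_eq_zero fun n hn => ?_
    rw [inner_smul_right, hperp n (by have := Finset.mem_range.1 hn; omega) u hu, mul_zero]
  have hTX : T X - μ⁻¹ • X = (μ ^ N * μ⁻¹) • v N - μ⁻¹ • v 0 := by
    have h1 : T X = ∑ n ∈ Finset.range N, (μ ^ (n + 1) * μ⁻¹) • v (n + 1) := by
      rw [hX, map_sum]
      refine Finset.sum_congr rfl fun n _ => ?_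
      rw [map_smul, hvs, pow_succ, mul_assoc, mul_inv_cancel₀ hμ0, mul_one]
    have h2 : μ⁻¹ • X = ∑ n ∈ Finset.range N, (μ ^ n * μ⁻¹) • v n := by
      rw [hX, Finset.smul_sum]
      refine Finset.sum_congr rfl fun n _ => ?_
      rw [smul_smul, mul_comm]
    rw [h1, h2, ← Finset.sum_sub_distrib, Finset.sum_range_sub (fun n => (μ ^ n * μ⁻¹) • v n)]
    simp
  have hTXn : ‖T X - μ⁻¹ • X‖ ≤ 3 := by
    rw [hTX]
    refine (norm_sub_le _ _).trans ?_
    rw [norm_smul, norm_smul, norm_mul, norm_pow, hμ1, hw1, hv0, one_pow]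
    linarith
  have hsq : 5 * (1 + ‖T‖) ≤ η / 2 * Real.sqrt N := by
    have h1 : 5 * (1 + ‖T‖) / (η / 2) ≤ Real.sqrt N :=
      Real.le_sqrt_of_sq_le hN.le
    rw [div_le_iff₀ (by positivity)] at h1
    linarith
  have hXsq : Real.sqrt N ≤ 3 / 2 * ‖X‖ := by
    rw [Real.sqrt_le_left (by positivity)]
    nlinarith
  have hbig : 3 * (1 + ‖T‖) ≤ η / 2 * ‖X‖ := by
    have h1 : η / 2 * Real.sqrt N ≤ η / 2 * (3 / 2 * ‖X‖) :=
      mul_le_mul_of_nonneg_left hXsq (by positivity)
    have := norm_nonneg T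
    nlinarith
  have hTn := norm_nonneg T
  refine ⟨μ⁻¹, ((‖X‖ : ℂ)⁻¹) • X, hw1, ?_, ?_, ?_, ?_⟩
  · rw [norm_smul, norm_inv, Complex.norm_real, norm_norm]
    exact inv_mul_cancel₀ hXpos.ne'
  · intro u hu
    rw [inner_smul_right, hXperp u (Finset.mem_union_left _ hu), mul_zero]
  · rw [map_smul, smul_comm, ← smul_sub, norm_smul, norm_inv, Complex.norm_real, norm_norm,
      inv_mul_le_iff₀ hXpos]
    nlinarith
  · have h1 : adjoint T X - conj μ⁻¹ • X =
        -(conj μ⁻¹ • ((1 - adjoint T * T) X)) - conj μ⁻¹ • adjoint T (T X - μ⁻¹ • X) := by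
      have h2 : (1 - adjoint T * T) X = X - adjoint T (T X) := rfl
      have h3 : conj μ⁻¹ * μ⁻¹ = 1 := by
        rw [mul_comm, Complex.mul_conj, Complex.normSq_eq_norm_sq, hw1]; simp
      rw [h2, map_sub, map_smul, smul_sub, smul_sub, smul_smul, h3, one_smul]
      abel
    have hcw : ‖conj μ⁻¹‖ = 1 := by rw [Complex.norm_conj, hw1]
    have h4 : ‖adjoint T X - conj μ⁻¹ • X‖ ≤ η' * ‖X‖ + ‖T‖ * 3 := by
      rw [h1]
      refine (norm_sub_le _ _).trans ?_
      rw [norm_neg, norm_smul, norm_smul, hcw, one_mul, one_mul]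
      refine add_le_add (hD X hXperp) ?_
      refine ((adjoint T).le_opNorm _).trans ?_
      rw [LinearIsometryEquiv.norm_map]
      exact mul_le_mul_of_nonneg_left hTXn hTn
    rw [map_smul, smul_comm, ← smul_sub, norm_smul, norm_inv, Complex.norm_real, norm_norm,
      inv_mul_le_iff₀ hXpos]
    nlinarith

end Part1

section Part2

variable {H : Type*} [NormedAddCommGroup H] [InnerProductSpace ℂ H] [CompleteSpace H]

/-- an orthonormal sequence of approximate joint eigenvectors with a common eigenvalue -/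
lemma exists_orthonormal_approx (hH : ¬ FiniteDimensional ℂ H) {T : H →L[ℂ] H}
    (hT : AlmostIsometric T) (ε : ℝ) (hε : 0 < ε) :
    ∃ w : ℂ, ‖w‖ = 1 ∧ ∃ x : ℕ → H, Orthonormal ℂ x ∧
      ∀ n, ‖T (x n) - w • x n‖ + ‖adjoint T (x n) - conj w • x n‖ ≤ ε * (1 / 2) ^ n := by
  classical
  obtain ⟨f, hf1, hf2⟩ := exists_seq_of_forall_finset_exists
    (fun a : ℝ × ℂ × H => 0 < a.1 ∧ ‖a.2.1‖ = 1 ∧ ‖a.2.2‖ = 1 ∧
      ‖T a.2.2 - a.2.1 • a.2.2‖ ≤ a.1 ∧ ‖adjoint T a.2.2 - conj a.2.1 • a.2.2‖ ≤ a.1)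
    (fun a b => inner ℂ a.2.2 b.2.2 = 0 ∧ b.1 ≤ a.1 / 2) (by
      intro s hs
      have h1 : ∃ η : ℝ, 0 < η ∧ ∀ a ∈ s, η ≤ a.1 / 2 := by
        induction s using Finset.induction_on with
        | empty => exact ⟨1, one_pos, by simp⟩
        | insert a s _ ih =>
          obtain ⟨η, h1, h2⟩ := ih fun x hx => hs x (Finset.mem_insert_of_mem hx)
          have h3 := (hs a (Finset.mem_insert_self _ _)).1
          refine ⟨min η (a.1 / 2), lt_min h1 (by positivity), fun b hb => ?_⟩
          rcases Finset.mem_insert.1 hb with rfl | hb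
          · exact min_le_right _ _
          · exact (min_le_left _ _).trans (h2 b hb)
      obtain ⟨η, hη, hη2⟩ := h1
      obtain ⟨w, x, hw, hx, hx1, hx2, hx3⟩ := exists_approx hH hT (s.image fun a => a.2.2) η hη
      exact ⟨(η, w, x), ⟨hη, hw, hx, hx2, hx3⟩, fun a ha =>
        ⟨hx1 _ (Finset.mem_image_of_mem _ ha), hη2 a ha⟩⟩)
  have hη0 : ∀ n, (f n).1 ≤ (f 0).1 * (1 / 2) ^ n := by
    intro n
    induction n with
    | zero => simp
    | succ n ih =>
      have := (hf2 n (n + 1) (Nat.lt_succ_self n)).2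
      rw [pow_succ]
      linarith
  have hηlim : Tendsto (fun n => (f n).1) atTop (𝓝 0) := by
    refine squeeze_zero (fun n => (hf1 n).1.le) hη0 ?_
    have := (tendsto_pow_atTop_nhds_zero_of_lt_one (r := (1 / 2 : ℝ)) (by norm_num)
      (by norm_num)).const_mul (f 0).1
    simpa using this
  obtain ⟨w, hw, φ, hφ, hφlim⟩ := (isCompact_sphere (0 : ℂ) 1).tendsto_subseq
    (x := fun n => (f n).2.1) (fun n => by simpa using (hf1 n).2.1)
  have hw1 : ‖w‖ = 1 := by simpa using hw
  have hlim : Tendsto (fun n => 2 * ((f (φ n)).1 + ‖(f (φ n)).2.1 - w‖)) atTop (𝓝 0) := by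
    have h1 : Tendsto (fun n => (f (φ n)).1) atTop (𝓝 0) := hηlim.comp hφ.tendsto_atTop
    have h2 : Tendsto (fun n => ‖(f (φ n)).2.1 - w‖) atTop (𝓝 0) :=
      tendsto_iff_norm_sub_tendsto_zero.1 hφlim
    simpa using (h1.add h2).const_mul 2
  obtain ⟨ψ, hψ, hψ2⟩ := extraction_forall_of_eventually
    (P := fun n k => 2 * ((f (φ k)).1 + ‖(f (φ k)).2.1 - w‖) ≤ ε * (1 / 2) ^ n)
    (fun n => (hlim.eventually (ge_mem_nhds (show (0 : ℝ) < ε * (1 / 2) ^ n by positivity))))
  refine ⟨w, hw1, fun n => (f (φ (ψ n))).2.2, ⟨fun n => (hf1 _).2.2.1, ?_⟩, fun n => ?_⟩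
  · intro m n hmn
    rcases lt_or_gt_of_ne hmn with h | h
    · exact (hf2 _ _ (hφ (hψ h))).1
    · rw [← inner_conj_symm, (hf2 _ _ (hφ (hψ h))).1, map_zero]
  · show ‖T (f (φ (ψ n))).2.2 - w • (f (φ (ψ n))).2.2‖ +
      ‖adjoint T (f (φ (ψ n))).2.2 - conj w • (f (φ (ψ n))).2.2‖ ≤ _
    have h1 := (hf1 (φ (ψ n))).2.2.2.1
    have h2 := (hf1 (φ (ψ n))).2.2.2.2
    have h0 := (hf1 (φ (ψ n))).2.2.1
    have h3 := hψ2 n
    generalize f (φ (ψ n)) = a at h0 h1 h2 h3
    have e1 : ‖T a.2.2 - w • a.2.2‖ ≤ a.1 + ‖a.2.1 - w‖ := by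
      have : T a.2.2 - w • a.2.2 = (T a.2.2 - a.2.1 • a.2.2) + (a.2.1 - w) • a.2.2 := by
        rw [sub_smul]; abel
      rw [this]
      refine (norm_add_le _ _).trans (add_le_add h1 ?_)
      rw [norm_smul, h0, mul_one]
    have e2 : ‖adjoint T a.2.2 - conj w • a.2.2‖ ≤ a.1 + ‖a.2.1 - w‖ := by
      have : adjoint T a.2.2 - conj w • a.2.2 =
          (adjoint T a.2.2 - conj a.2.1 • a.2.2) + conj (a.2.1 - w) • a.2.2 := by
        rw [map_sub, sub_smul]; abel
      rw [this]
      refine (norm_add_le _ _).trans (add_le_add h2 ?_)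
      rw [norm_smul, h0, mul_one, Complex.norm_conj]
    linarith

end Part2

section Part3

variable {H : Type*} [NormedAddCommGroup H] [InnerProductSpace ℂ H]

/-- the diagonal of a trace class operator tends to `0` along orthonormal sequences -/
lemma tendsto_diag {C : H →L[ℂ] H} (hC : TraceClass C) {u : ℕ → H} (hu : Orthonormal ℂ u) :
    Tendsto (fun n => ‖inner ℂ (u n) (C (u n))‖) atTop (𝓝 0) := by
  obtain ⟨a, b, h1, h2⟩ := hC
  have h3 : ∀ n, inner ℂ (u n) (C (u n)) =
      ∑' k, inner ℂ (b k) (u n) * inner ℂ (u n) (a k) := by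
    intro n
    have := (innerSL ℂ (u n)).hasSum (h2 (u n))
    simp only [innerSL_apply_apply, inner_smul_right] at this
    exact this.tsum_eq.symm
  have h4 : ∀ p : H, Tendsto (fun n => inner ℂ (u n) p) atTop (𝓝 0) := by
    intro p
    have h5 := (hu.inner_products_summable p).tendsto_atTop_zero
    rw [tendsto_zero_iff_norm_tendsto_zero]
    have h6 := h5.sqrt
    simpa [Real.sqrt_sq] using h6
  have h4' : ∀ p : H, Tendsto (fun n => inner ℂ p (u n)) atTop (𝓝 0) := by
    intro p
    have h5 := (RCLike.continuous_conj (K := ℂ)).tendsto 0 |>.comp (h4 p)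
    simpa [Function.comp_def] using h5
  have h5 : Tendsto (fun n => ∑' k, inner ℂ (b k) (u n) * inner ℂ (u n) (a k)) atTop
      (𝓝 (∑' _ : ℕ, (0 : ℂ))) := by
    refine tendsto_tsum_of_dominated_convergence h1 (fun k => ?_)
      (Eventually.of_forall fun n k => ?_)
    · simpa using (h4' (b k)).mul (h4 (a k))
    · rw [norm_mul]
      have e1 : ‖inner ℂ (b k) (u n)‖ ≤ ‖b k‖ := by
        simpa [hu.1 n] using norm_inner_le_norm (𝕜 := ℂ) (b k) (u n)
      have e2 : ‖inner ℂ (u n) (a k)‖ ≤ ‖a k‖ := by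
        simpa [hu.1 n] using norm_inner_le_norm (𝕜 := ℂ) (u n) (a k)
      calc _ ≤ ‖b k‖ * ‖a k‖ := mul_le_mul e1 e2 (norm_nonneg _) (norm_nonneg _)
        _ = _ := mul_comm _ _
  rw [tsum_zero] at h5
  simp only [h3]
  simpa using h5.norm

/-- an operator `A` with `‖A v‖² ≤ 1 + |⟪v, C v⟫|` on unit vectors (`C` of trace class) has only
countably many eigenvalues outside the closed unit disc -/
lemma countable_eigenvalues {A C : H →L[ℂ] H} (hC : TraceClass C)
    (hA : ∀ v, ‖v‖ = 1 → ‖A v‖ ^ 2 ≤ 1 + ‖inner ℂ v (C v)‖) :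
    {z : ℂ | 1 < ‖z‖ ∧ ∃ v ≠ 0, A v = z • v}.Countable := by
  have h1 : {z : ℂ | 1 < ‖z‖ ∧ ∃ v ≠ 0, A v = z • v} ⊆
      ⋃ m : ℕ, {z : ℂ | 1 + 1 / ((m : ℝ) + 1) < ‖z‖ ∧ ∃ v ≠ 0, A v = z • v} := by
    rintro z ⟨hz, hv⟩
    obtain ⟨m, hm⟩ := exists_nat_one_div_lt (sub_pos.2 hz)
    exact Set.mem_iUnion.2 ⟨m, by linarith, hv⟩
  refine (Set.countable_iUnion fun m => Set.Finite.countable ?_).mono h1
  by_contra hinf
  have hinf' : Set.Infinite {z : ℂ | 1 + 1 / ((m : ℝ) + 1) < ‖z‖ ∧ ∃ v ≠ 0, A v = z • v} := hinf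
  set δ : ℝ := 1 / ((m : ℝ) + 1) with hδ
  have hδ0 : 0 < δ := by positivity
  let ζ := hinf'.natEmbedding
  have hζ : ∀ n, 1 + δ < ‖(ζ n : ℂ)‖ := fun n => (ζ n).2.1
  choose f hf0 hf using fun n => (ζ n).2.2
  have hind : LinearIndependent ℂ f := by
    refine Module.End.eigenvectors_linearIndependent' (A : H →ₗ[ℂ] H) (fun n => (ζ n : ℂ))
      (fun i j hij => ζ.injective (Subtype.ext hij)) f (fun n => ?_)
    rw [Module.End.hasEigenvector_iff, Module.End.mem_eigenspace_iff]
    exact ⟨hf n, hf0 n⟩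
  set u := gramSchmidtNormed ℂ f with hu
  have huo : Orthonormal ℂ u := gramSchmidtNormed_orthonormal hind
  -- the invariant subspaces
  have hW : ∀ n, ∀ p ∈ Submodule.span ℂ (f '' Set.Iio n),
      A p ∈ Submodule.span ℂ (f '' Set.Iio n) := by
    intro n p hp
    induction hp using Submodule.span_induction with
    | mem p hp =>
      obtain ⟨k, hk, rfl⟩ := hp
      rw [hf k]
      exact Submodule.smul_mem _ _ (Submodule.subset_span ⟨k, hk, rfl⟩)
    | zero => rw [map_zero]; exact Submodule.zero_mem _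
    | add p q _ _ h h' => rw [map_add]; exact Submodule.add_mem _ h h'
    | smul a p _ h => rw [map_smul]; exact Submodule.smul_mem _ _ h
  have hperp : ∀ n, ∀ p ∈ Submodule.span ℂ (f '' Set.Iio n), inner ℂ (u n) p = 0 := by
    intro n p hp
    rw [← span_gramSchmidt_Iio ℂ f n, ← span_gramSchmidtNormed] at hp
    induction hp using Submodule.span_induction with
    | mem p hp =>
      obtain ⟨k, hk, rfl⟩ := hp
      exact huo.2 (ne_of_gt hk)
    | zero => rw [inner_zero_right]
    | add p q _ _ h h' => rw [inner_add_right, h, h', add_zero]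
    | smul a p _ h => rw [inner_smul_right, h, mul_zero]
  have hdec : ∀ n, f n - gramSchmidt ℂ f n ∈ Submodule.span ℂ (f '' Set.Iio n) := by
    intro n
    rw [gramSchmidt_def, sub_sub_cancel, ← span_gramSchmidt_Iio ℂ f n]
    refine Submodule.sum_mem _ fun i hi => ?_
    have h5 : (Submodule.span ℂ {gramSchmidt ℂ f i}).starProjection (f n) ∈
        Submodule.span ℂ {gramSchmidt ℂ f i} := Submodule.starProjection_apply_mem _ _
    refine Submodule.span_mono ?_ h5
    rw [Set.singleton_subset_iff]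
    exact ⟨i, Finset.mem_Iio.1 hi, rfl⟩
  have hinner : ∀ n, inner ℂ (u n) (A (u n)) = (ζ n : ℂ) := by
    intro n
    have e1 : u n = (‖gramSchmidt ℂ f n‖ : ℂ)⁻¹ • gramSchmidt ℂ f n := rfl
    have e2 : A (u n) = (ζ n : ℂ) • u n + (‖gramSchmidt ℂ f n‖ : ℂ)⁻¹ •
        ((ζ n : ℂ) • (f n - gramSchmidt ℂ f n) - A (f n - gramSchmidt ℂ f n)) := by
      rw [e1, map_smul, map_sub, hf n, smul_sub (ζ n : ℂ), smul_comm (ζ n : ℂ), ← smul_add]
      congr 1
      abel
    rw [e2, inner_add_right, inner_smul_right, inner_smul_right, hperp n _ (Submodule.sub_mem _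
      (Submodule.smul_mem _ _ (hdec n)) (hW n _ (hdec n))), mul_zero, add_zero]
    have := inner_self_eq_norm_sq_to_K (𝕜 := ℂ) (u n)
    rw [this, huo.1 n]; simp
  have hge : ∀ n, (1 + δ) ^ 2 ≤ 1 + ‖inner ℂ (u n) (C (u n))‖ := by
    intro n
    refine le_trans ?_ (hA (u n) (huo.1 n))
    have e1 : ‖(ζ n : ℂ)‖ ≤ ‖A (u n)‖ := by
      rw [← hinner n]
      simpa [huo.1 n] using norm_inner_le_norm (𝕜 := ℂ) (u n) (A (u n))
    have e2 := hζ n
    exact pow_le_pow_left₀ (by positivity) (by linarith) 2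
  have hlim := (tendsto_diag hC huo).const_add 1
  rw [add_zero] at hlim
  have := ge_of_tendsto' hlim hge
  nlinarith

variable [CompleteSpace H]

omit [CompleteSpace H] in
lemma TraceClass.comp_left {A : H →L[ℂ] H} (hA : TraceClass A) (B : H →L[ℂ] H) :
    TraceClass (B * A) := by
  obtain ⟨a, b, h1, h2⟩ := hA
  refine ⟨fun n => B (a n), b, ?_, fun x => ?_⟩
  · refine Summable.of_nonneg_of_le (fun n => by positivity) (fun n => ?_) (h1.mul_left ‖B‖)
    rw [← mul_assoc]
    exact mul_le_mul_of_nonneg_right (B.le_opNorm _) (norm_nonneg _)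
  · simpa using B.hasSum (h2 x)

lemma TraceClass.comp_right {A : H →L[ℂ] H} (hA : TraceClass A) (B : H →L[ℂ] H) :
    TraceClass (A * B) := by
  obtain ⟨a, b, h1, h2⟩ := hA
  refine ⟨a, fun n => adjoint B (b n), ?_, fun x => ?_⟩
  · refine Summable.of_nonneg_of_le (fun n => by positivity) (fun n => ?_) (h1.mul_left ‖B‖)
    have := (adjoint B).le_opNorm (b n)
    rw [LinearIsometryEquiv.norm_map] at this
    calc ‖a n‖ * ‖adjoint B (b n)‖ ≤ ‖a n‖ * (‖B‖ * ‖b n‖) :=
          mul_le_mul_of_nonneg_left this (norm_nonneg _)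
      _ = _ := by ring
  · have := h2 (B x)
    simpa [adjoint_inner_left] using this

/-- an almost isometric operator has countably many eigenvalues outside the closed disc -/
lemma countable_eig {T : H →L[ℂ] H} (hT : AlmostIsometric T) :
    {z : ℂ | 1 < ‖z‖ ∧ ∃ v ≠ 0, T v = z • v}.Countable := by
  refine countable_eigenvalues hT fun v hv => ?_
  rw [norm_T_sq, hv]
  have h1 := Complex.abs_re_le_norm (inner ℂ v ((1 - adjoint T * T) v))
  have h2 := neg_abs_le (inner ℂ v ((1 - adjoint T * T) v)).re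
  linarith

/-- and so does its adjoint -/
lemma countable_eig_adj {T : H →L[ℂ] H} (hT : AlmostIsometric T) :
    {z : ℂ | 1 < ‖z‖ ∧ ∃ v ≠ 0, adjoint T v = z • v}.Countable := by
  have hC : TraceClass (T * (1 - adjoint T * T) * adjoint T) :=
    (hT.comp_left T).comp_right _
  refine countable_eigenvalues hC fun v hv => ?_
  set C := T * (1 - adjoint T * T) * adjoint T with hCdef
  -- `w = T T* v`
  obtain ⟨w, hw⟩ : ∃ w, w = T (adjoint T v) := ⟨_, rfl⟩
  have h1 : (‖adjoint T v‖ ^ 2 : ℝ) = (inner ℂ v w).re := by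
    have h2 := inner_self_eq_norm_sq (𝕜 := ℂ) (adjoint T v)
    rw [adjoint_inner_left] at h2
    rw [hw, ← h2]; rfl
  have h2 : (‖w‖ ^ 2 : ℝ) = (inner ℂ v w).re - (inner ℂ v (C v)).re := by
    have e1 : C v = w - T (adjoint T w) := by
      rw [hw]
      show T (adjoint T v - adjoint T (T (adjoint T v))) = _
      rw [map_sub]
    rw [e1, inner_sub_right, Complex.sub_re, sub_sub_cancel]
    have e2 := inner_self_eq_norm_sq (𝕜 := ℂ) w
    rw [← e2]
    have e3 : inner ℂ w w = inner ℂ v (T (adjoint T w)) := by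
      rw [← adjoint_inner_left T, adjoint_inner_right T, ← hw]
    rw [e3]; rfl
  have h3 : (inner ℂ v w).re ≤ ‖w‖ := by
    refine (Complex.re_le_norm _).trans ?_
    simpa [hv] using norm_inner_le_norm (𝕜 := ℂ) v w
  have h4 := Complex.abs_re_le_norm (inner ℂ v (C v))
  have h5 := neg_abs_le (inner ℂ v (C v)).re
  have h6 := norm_nonneg w
  rw [h1]
  have h7 : ‖w‖ ^ 2 ≤ ‖w‖ + ‖inner ℂ v (C v)‖ := by
    rw [h2]; linarith
  by_contra hcon
  push Not at hcon
  have h8 : 1 + ‖inner ℂ v (C v)‖ < ‖w‖ := by linarith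
  nlinarith [norm_nonneg (inner ℂ v (C v))]

end Part3

section Part4

variable {H : Type*} [NormedAddCommGroup H] [InnerProductSpace ℂ H] [CompleteSpace H]

section Main

variable {ι : Type*} (x y : ι → H) (s : ι → ℝ)

/-- the rank-one operators. -/
noncomputable def rk (i : ι) : H →L[ℂ] H :=
  (innerSL ℂ (y i)).smulRight ((s i : ℂ) • x i)

omit [CompleteSpace H] in
lemma norm_rk_le (i : ι) : ‖rk x y s i‖ ≤ |s i| * ‖x i‖ * ‖y i‖ := by
  unfold rk
  rw [ContinuousLinearMap.norm_smulRight_apply, norm_smul, innerSL_apply_norm]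
  simp only [Complex.norm_real, Real.norm_eq_abs]
  apply le_of_eq; ring

variable (hs : Summable (fun i => |s i| * ‖x i‖ * ‖y i‖))

include hs in
lemma summable_rk : Summable (rk x y s) :=
  Summable.of_norm_bounded hs (norm_rk_le x y s)

/-- the operator `∑ s i • x i ⊗ y i`. -/
noncomputable def KK : H →L[ℂ] H := ∑' i, rk x y s i

include hs in
lemma hasSum_KK (p : H) : HasSum (fun i => inner ℂ (y i) p • ((s i : ℂ) • x i)) (KK x y s p) := by
  have h1 := (summable_rk x y s hs).hasSum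
  have h2 := (ContinuousLinearMap.apply ℂ H p).hasSum h1
  simpa [rk, KK] using h2

include hs in
lemma traceNormLE_KK (σ : ℕ ≃ ι) (C : ℝ) (hC : ∑' i, |s i| * ‖x i‖ * ‖y i‖ ≤ C) :
    TraceNormLE (KK x y s) C := by
  have e1 : (fun n => ‖((s (σ n) : ℂ) • x (σ n))‖ * ‖y (σ n)‖) =
      (fun i => |s i| * ‖x i‖ * ‖y i‖) ∘ σ := by
    funext n
    simp [norm_smul]
  refine ⟨fun n => (s (σ n) : ℂ) • x (σ n), fun n => y (σ n), ?_, ?_, fun p => ?_⟩
  · rw [e1]; exact (σ.summable_iff).2 hs
  · rw [e1]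
    exact (σ.tsum_eq (fun i => |s i| * ‖x i‖ * ‖y i‖)).le.trans hC
  · exact (σ.hasSum_iff (f := fun i => inner ℂ (y i) p • ((s i : ℂ) • x i))).2
      (hasSum_KK x y s hs p)

include hs in
/-- the adjoint is the operator of the swapped families -/
lemma adjoint_KK : adjoint (KK x y s) = KK y x s := by
  have hs' : Summable (fun i => |s i| * ‖y i‖ * ‖x i‖) := by
    refine hs.congr fun i => by ring
  refine ContinuousLinearMap.ext fun q => ext_inner_left ℂ fun p => ?_
  rw [adjoint_inner_right]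
  have h1 := (innerSL ℂ q).hasSum (hasSum_KK x y s hs p)
  have h2 := (innerSL ℂ p).hasSum (hasSum_KK y x s hs' q)
  have h3 := h1.map (starRingEnd ℂ).toAddMonoidHom RCLike.continuous_conj
  refine HasSum.unique (f := fun i => inner ℂ p (inner ℂ (x i) q • ((s i : ℂ) • y i))) ?_ h2
  convert h3 using 1
  · funext i
    simp [mul_comm, mul_left_comm]
    ring
  · simp

variable [DecidableEq ι] (hbi : ∀ i j, inner ℂ (y i) (x j) = if i = j then (1 : ℂ) else 0)

include hs hbi in
lemma inner_y_KK (i : ι) (p : H) :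
    inner ℂ (y i) (KK x y s p) = (s i : ℂ) * inner ℂ (y i) p := by
  have h1 := (innerSL ℂ (y i)).hasSum (hasSum_KK x y s hs p)
  have h2 : HasSum (fun j => (innerSL ℂ (y i)) (inner ℂ (y j) p • ((s j : ℂ) • x j)))
      ((innerSL ℂ (y i)) (inner ℂ (y i) p • ((s i : ℂ) • x i))) := by
    refine hasSum_single i fun j hj => ?_
    simp [hbi, Ne.symm hj]
  have h3 := h1.unique h2
  simp only [innerSL_apply_apply, inner_smul_right, hbi, if_true] at h3
  rw [h3]; ring

include hs hbi in
lemma KK_x (i : ι) : KK x y s (x i) = (s i : ℂ) • x i := by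
  have h1 := hasSum_KK x y s hs (x i)
  have h2 : HasSum (fun j => inner ℂ (y j) (x i) • ((s j : ℂ) • x j))
      (inner ℂ (y i) (x i) • ((s i : ℂ) • x i)) := by
    refine hasSum_single i fun j hj => ?_
    simp [hbi, hj]
  have h3 := h1.unique h2
  rw [h3, hbi]; simp

variable (hs0 : ∀ i, s i ≠ 0) (hsi : Function.Injective s)

include hs hbi hs0 hsi in
/-- the eigenvalues `l * (1 + s i)` of `T₁ + l * K` are simple -/
lemma simple_eigenvalue (T₁ : H →L[ℂ] H) (l : ℂ) (hT1 : ∀ i, T₁ (x i) = l • x i) (i : ι)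
    (hE : ∀ v, T₁ v = (l * (1 + s i)) • v → v = 0) (v : H)
    (hv : T₁ v + l • KK x y s v = (l * (1 + s i)) • v) : v = inner ℂ (y i) v • x i := by
  set K := KK x y s with hK
  have h1 : T₁ (K v) = l • K v := by
    have e1 := T₁.hasSum (hasSum_KK x y s hs v)
    have e2 := (hasSum_KK x y s hs v).const_smul l
    refine HasSum.unique ?_ e2
    convert e1 using 1
    funext j
    rw [map_smul, map_smul, hT1, smul_comm l, smul_comm l]
  have h2 : (s i : ℂ) • v - K v = 0 := by
    apply hE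
    have e1 : T₁ v = (l * (1 + s i)) • v - l • K v := eq_sub_of_add_eq hv
    rw [map_sub, map_smul, h1, e1]
    module
  have h3 : K v = (s i : ℂ) • v := (sub_eq_zero.1 h2).symm
  have h4 : ∀ j, j ≠ i → inner ℂ (y j) v = 0 := by
    intro j hj
    have e1 := inner_y_KK x y s hs hbi j v
    rw [← hK, h3, inner_smul_right] at e1
    have e2 : ((s i : ℂ) - s j) * inner ℂ (y j) v = 0 := by rw [sub_mul, e1, sub_self]
    rcases mul_eq_zero.1 e2 with h | h
    · exfalso
      apply hj
      apply hsi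
      have : (s i : ℂ) = s j := sub_eq_zero.1 h
      exact_mod_cast this.symm
    · exact h
  have h5 : HasSum (fun j => inner ℂ (y j) v • ((s j : ℂ) • x j))
      (inner ℂ (y i) v • ((s i : ℂ) • x i)) := by
    refine hasSum_single i fun j hj => ?_
    rw [h4 j hj, zero_smul]
  have h6 := (hasSum_KK x y s hs v).unique h5
  rw [← hK, h3, smul_comm] at h6
  have h7 : (s i : ℂ) ≠ 0 := by exact_mod_cast hs0 i
  exact smul_right_injective H h7 h6

/-- The hypotheses on the operator `T₁`, which has the same eigenvalue `l` on all the vectors. -/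
structure Data (T₁ : H →L[ℂ] H) (l : ℂ) : Prop where
  hs : Summable (fun i => |s i| * ‖x i‖ * ‖y i‖)
  hbi : ∀ i j, inner ℂ (y i) (x j) = if i = j then (1 : ℂ) else 0
  hs0 : ∀ i, s i ≠ 0
  hsi : Function.Injective s
  hx : ∀ i, T₁ (x i) = l • x i
  hy : ∀ i, adjoint T₁ (y i) = conj l • y i
  hE : ∀ i v, T₁ v = (l * (1 + s i)) • v → v = 0
  hE' : ∀ i v, adjoint T₁ v = (conj l * (1 + s i)) • v → v = 0

variable {x y s} {T₁ : H →L[ℂ] H} {l : ℂ} (hd : Data x y s T₁ l)

include hd in
lemma Data.T_x (i : ι) : (T₁ + l • KK x y s) (x i) = (l * (1 + s i)) • x i := by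
  have h1 : (T₁ + l • KK x y s) (x i) = T₁ (x i) + l • KK x y s (x i) := rfl
  rw [h1, hd.hx, KK_x x y s hd.hs hd.hbi]
  module

include hd in
lemma Data.adj_apply (q : H) : adjoint (T₁ + l • KK x y s) q =
    adjoint T₁ q + conj l • KK y x s q := by
  rw [map_add, ← adjoint_KK x y s hd.hs]
  have : adjoint (l • KK x y s) = conj l • adjoint (KK x y s) := by
    rw [LinearIsometryEquiv.map_smulₛₗ]
  rw [this]; rfl

include hd in
lemma Data.hs' : Summable (fun i => |s i| * ‖y i‖ * ‖x i‖) :=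
  hd.hs.congr fun i => by ring

include hd in
lemma Data.hbi' (i j : ι) : inner ℂ (x i) (y j) = if i = j then (1 : ℂ) else 0 := by
  rw [← inner_conj_symm, hd.hbi]
  by_cases h : i = j
  · subst h; simp
  · simp [h, Ne.symm h]

include hd in
lemma Data.T_y (i : ι) : adjoint (T₁ + l • KK x y s) (y i) = (conj l * (1 + s i)) • y i := by
  rw [hd.adj_apply, hd.hy, KK_x y x s hd.hs' hd.hbi']
  module

include hd in
/-- every operator in the commutant is diagonal on the families -/
lemma Data.commutant {A : H →L[ℂ] H}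
    (hA : (T₁ + l • KK x y s) * A = A * (T₁ + l • KK x y s)) (i : ι) :
    (∃ a : ℂ, A (x i) = a • x i) ∧ ∃ b : ℂ, adjoint A (y i) = b • y i := by
  set T := T₁ + l • KK x y s with hT
  constructor
  · refine ⟨_, simple_eigenvalue x y s hd.hs hd.hbi hd.hs0 hd.hsi T₁ l hd.hx i (hd.hE i)
      (A (x i)) ?_⟩
    have h1 : T (A (x i)) = A (T (x i)) := congrArg (fun B : H →L[ℂ] H => B (x i)) hA
    rw [hd.T_x i, map_smul] at h1
    exact h1
  · refine ⟨_, simple_eigenvalue y x s hd.hs' hd.hbi' hd.hs0 hd.hsi (adjoint T₁) (conj l) hd.hy i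
      (hd.hE' i) (adjoint A (y i)) ?_⟩
    have hA' : adjoint T * adjoint A = adjoint A * adjoint T := by
      have := congrArg adjoint hA
      have e1 : adjoint (T * A) = adjoint A * adjoint T := adjoint_comp T A
      have e2 : adjoint (A * T) = adjoint T * adjoint A := adjoint_comp A T
      rw [e1, e2] at this
      exact this.symm
    have h1 : adjoint T (adjoint A (y i)) = adjoint A (adjoint T (y i)) :=
      congrArg (fun B : H →L[ℂ] H => B (y i)) hA'
    rw [hd.T_y i, map_smul, hd.adj_apply] at h1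
    exact h1

include hd in
/-- projections onto spans of parts of the two families are in the bicommutant -/
lemma Data.proj_mem (J : Set ι) (M : Submodule ℂ H) [M.HasOrthogonalProjection]
    (hx : ∀ p : H, (∀ i ∈ J, inner ℂ (x i) p = 0) ↔ p ∈ Mᗮ)
    (hy : ∀ p : H, (∀ i ∈ J, inner ℂ (y i) p = 0) ↔ p ∈ Mᗮ) :
    M.starProjection ∈ bicommutant (T₁ + l • KK x y s) := by
  rw [bicommutant, Set.mem_centralizer_iff]
  intro A hA
  rw [Set.mem_centralizer_iff] at hA
  have hA1 := hA _ rfl
  have h1 : ∀ p ∈ Mᗮ, A p ∈ Mᗮ := by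
    intro p hp
    rw [← hy]
    intro i hi
    obtain ⟨b, hb⟩ := (hd.commutant hA1 i).2
    rw [← adjoint_inner_left, hb, inner_smul_left, (hy p).2 hp i hi, mul_zero]
  have h2 : ∀ q ∈ Mᗮ, adjoint A q ∈ Mᗮ := by
    intro q hq
    rw [← hx]
    intro i hi
    obtain ⟨a, ha⟩ := (hd.commutant hA1 i).1
    rw [adjoint_inner_right, ha, inner_smul_left, (hx q).2 hq i hi, mul_zero]
  have h3 : ∀ p ∈ M, A p ∈ M := by
    intro p hp
    rw [← Submodule.orthogonal_orthogonal M, Submodule.mem_orthogonal]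
    intro q hq
    rw [← ContinuousLinearMap.adjoint_inner_left]
    exact Submodule.inner_left_of_mem_orthogonal hp (h2 q hq)
  ext p
  change A (M.starProjection p) = M.starProjection (A p)
  have hp1 : M.starProjection p ∈ M := Submodule.starProjection_apply_mem M p
  have hp2 : p - M.starProjection p ∈ Mᗮ := Submodule.sub_starProjection_mem_orthogonal p
  have e1 : A p = A (M.starProjection p) + A (p - M.starProjection p) := by
    rw [← map_add]; congr 1; abel
  rw [e1, map_add, Submodule.starProjection_eq_self_iff.2 (h3 _ hp1),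
    (Submodule.starProjection_apply_eq_zero_iff M).2 (h1 _ hp2), add_zero]

variable (f c : H) (hf1 : inner ℂ f f = (1 : ℂ)) (hc1 : inner ℂ c c = (1 : ℂ))
  (hf : adjoint T₁ f = conj l • f) (hc : T₁ c = l • c) (hcy : ∀ i, inner ℂ (y i) c = 0)
  (hfx : ∀ i, inner ℂ f (x i) = 0 ∨ inner ℂ (y i) f = 0)

include hd hf1 hc1 hf hc hcy hfx in
/-- The functional `A ↦ ⟪f, A f⟫ - ⟪c, A c⟫` kills the resolvents. -/
lemma Data.functional_resolvent {R : H →L[ℂ] H} (hR : R ∈ resolvents (T₁ + l • KK x y s)) :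
    inner ℂ f (R f) = inner ℂ c (R c) := by
  obtain ⟨z, hz, rfl⟩ := hR
  set T := (T₁ + l • KK x y s) - algebraMap ℂ (H →L[ℂ] H) z with hT
  have hu : IsUnit T := by
    rw [spectrum.notMem_iff] at hz
    have := hz.neg
    rwa [neg_sub] at this
  have hTR : ∀ p, T (Ring.inverse T p) = p := fun p => by
    have := congrArg (fun B : H →L[ℂ] H => B p) (Ring.mul_inverse_cancel T hu)
    simpa using this
  have hRT : ∀ p, Ring.inverse T (T p) = p := fun p => by
    have := congrArg (fun B : H →L[ℂ] H => B p) (Ring.inverse_mul_cancel T hu)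
    simpa using this
  have hTp : ∀ p, T p = (T₁ + l • KK x y s) p - z • p := fun p => by
    rw [hT]
    simp only [sub_apply, ContinuousLinearMap.algebraMap_apply]
  have hKc : KK x y s c = 0 := by
    have h1 := hasSum_KK x y s hd.hs c
    simp only [hcy, zero_smul] at h1
    exact h1.unique hasSum_zero
  have hTc : T c = (l - z) • c := by
    rw [hTp]
    have : (T₁ + l • KK x y s) c = T₁ c + l • KK x y s c := rfl
    rw [this, hc, hKc, smul_zero, add_zero, sub_smul]
  have hc0 : c ≠ 0 := by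
    rintro rfl
    simp at hc1
  have hz1 : (l - z) ≠ 0 := by
    intro h0
    rw [h0, zero_smul] at hTc
    have := hRT c
    rw [hTc, map_zero] at this
    exact hc0 this.symm
  have e1 : (l - z) * inner ℂ c (Ring.inverse T c) = 1 := by
    have := hRT c
    rw [hTc, map_smul] at this
    rw [← inner_smul_right, this, hc1]
  have hyT : ∀ i p, inner ℂ (y i) (T p) = (l * (1 + s i) - z) * inner ℂ (y i) p := by
    intro i p
    rw [hTp, inner_sub_right, inner_smul_right, ← adjoint_inner_left, hd.T_y i, inner_smul_left]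
    simp only [map_mul, map_add, map_one, Complex.conj_conj, Complex.conj_ofReal]
    ring
  have e2 : ∀ i, inner ℂ f (x i) = 0 ∨ inner ℂ (y i) (Ring.inverse T f) = 0 := by
    intro i
    rcases hfx i with h | h
    · exact Or.inl h
    · right
      have h1 := congrArg (fun v => inner ℂ (y i) v) (hTR f)
      simp only [hyT, h] at h1
      rcases mul_eq_zero.1 h1 with h3 | h3
      · exfalso
        have h4 : T (x i) = 0 := by
          rw [hTp, hd.T_x i, ← sub_smul, h3, zero_smul]
        have h5 := hRT (x i)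
        rw [h4, map_zero] at h5
        have h6 := hd.hbi i i
        rw [← h5] at h6
        simp at h6
      · exact h3
  have e3 : inner ℂ f (KK x y s (Ring.inverse T f)) = 0 := by
    have h1 := (innerSL ℂ f).hasSum (hasSum_KK x y s hd.hs (Ring.inverse T f))
    have h3 : (fun j => (innerSL ℂ f) (inner ℂ (y j) (Ring.inverse T f) • ((s j : ℂ) • x j)))
        = fun _ => (0 : ℂ) := by
      funext j
      rcases e2 j with h | h
      · simp [h]
      · simp [h]
    rw [h3] at h1
    have h4 := h1.unique hasSum_zero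
    rwa [innerSL_apply_apply] at h4
  have e4 : (l - z) * inner ℂ f (Ring.inverse T f) = 1 := by
    have h1 := congrArg (fun v => inner ℂ f v) (hTR f)
    have h2 : ∀ p, (T₁ + l • KK x y s) p = T₁ p + l • KK x y s p := fun p => rfl
    simp only [hTp, h2, inner_add_right, inner_sub_right, inner_smul_right, e3, hf1,
      mul_zero, add_zero] at h1
    rw [← adjoint_inner_left, hf, inner_smul_left, Complex.conj_conj] at h1
    rw [← h1]; ring
  exact mul_left_cancel₀ hz1 (e4.trans e1.symm)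

include hd hf1 hc1 hf hc hcy hfx in
/-- The functional kills the whole resolvent space. -/
lemma Data.functional_resolventSpace {R : H →L[ℂ] H}
    (hR : R ∈ resolventSpace (T₁ + l • KK x y s)) :
    inner ℂ f (R f) = inner ℂ c (R c) := by
  rw [resolventSpace, Set.mem_ofPred_eq] at hR
  let Φ : (H →WOT[ℂ] H) → ℂ := fun S => inner ℂ f (S f) - inner ℂ c (S c)
  have hΦ : Continuous Φ := by
    have a1 : Continuous fun S : H →WOT[ℂ] H => (innerSL ℂ f) (S f) :=
      ContinuousLinearMapWOT.continuous_dual_apply f (innerSL ℂ f)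
    have a2 : Continuous fun S : H →WOT[ℂ] H => (innerSL ℂ c) (S c) :=
      ContinuousLinearMapWOT.continuous_dual_apply c (innerSL ℂ c)
    exact a1.sub a2
  have hcl : IsClosed {S : H →WOT[ℂ] H | Φ S = 0} := isClosed_eq hΦ continuous_const
  have hsub : (ContinuousLinearMapWOT.ofCLM ''
      (Submodule.span ℂ (resolvents (T₁ + l • KK x y s)) : Set (H →L[ℂ] H))) ⊆
      {S : H →WOT[ℂ] H | Φ S = 0} := by
    rintro _ ⟨S, hS, rfl⟩
    have hS' : S ∈ Submodule.span ℂ (resolvents (T₁ + l • KK x y s)) := hS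
    show inner ℂ f (S f) - inner ℂ c (S c) = 0
    rw [sub_eq_zero]
    clear hS
    induction hS' using Submodule.span_induction with
    | mem S hS => exact hd.functional_resolvent f c hf1 hc1 hf hc hcy hfx hS
    | zero => simp
    | add S S' _ _ h h' => simp [h, h']
    | smul a S _ h => simp [h]
  have h2 := closure_minimal hsub hcl hR
  have h3 : inner ℂ f (R f) - inner ℂ c (R c) = (0 : ℂ) := h2
  exact sub_eq_zero.1 h3

end Main

end Part4

section Part5

variable {H : Type*} [NormedAddCommGroup H] [InnerProductSpace ℂ H]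

/-- the index type of the orthonormal family: one vector `c`, and for every `k` a vector `f k`
and two sequences. -/
abbrev Ix := Option (ℕ × Option (ℕ ⊕ ℕ))

variable (e : Ix → H)

/-- the eigenvectors. -/
def xx : ℕ × (ℕ ⊕ ℕ) → H := fun p =>
  Sum.elim (fun n => e (some (p.1, some (.inl n))) + e (some (p.1, none)) -
      ∑ j ∈ Finset.range n, e (some (p.1, some (.inr j))))
    (fun j => e (some (p.1, some (.inr j)))) p.2

/-- the dual eigenvectors. -/
def yy : ℕ × (ℕ ⊕ ℕ) → H := fun p =>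
  Sum.elim (fun n => e (some (p.1, some (.inl n))))
    (fun j => e (some (p.1, some (.inr j))) + e (some (p.1, none)) -
      ∑ n ∈ Finset.range (j + 1), e (some (p.1, some (.inl n)))) p.2

variable (he : Orthonormal ℂ e)

include he in
lemma ite_e (i j : Ix) : inner ℂ (e i) (e j) = if i = j then (1 : ℂ) else 0 :=
  orthonormal_iff_ite.1 he i j

include he in
lemma biorth (i j : ℕ × (ℕ ⊕ ℕ)) :
    inner ℂ (yy e i) (xx e j) = if i = j then (1 : ℂ) else 0 := by
  have h := ite_e e he
  obtain ⟨k, i⟩ := i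
  obtain ⟨m, j⟩ := j
  by_cases hkm : k = m
  · subst hkm
    rcases i with n | j' <;> rcases j with l | l
    · simp [xx, yy, inner_add_right, inner_sub_right, inner_sum, h]
    · simp [xx, yy, h]
    · simp only [xx, yy, Sum.elim_inl, Sum.elim_inr, inner_add_right, inner_sub_right, inner_sum,
        inner_add_left, inner_sub_left, sum_inner, h]
      simp only [Option.some.injEq, Prod.mk.injEq, true_and, Sum.inr.injEq, reduceCtorEq,
        if_false, Finset.sum_const_zero, Sum.inl.injEq,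
        Finset.sum_ite_eq, Finset.sum_ite_eq', Finset.mem_range, if_true, add_zero, zero_add,
        sub_zero, zero_sub]
      by_cases hlt : l < j' + 1
      · have : ¬ j' < l := by omega
        simp [hlt, this]
      · have : j' < l := by omega
        simp [hlt, this]
    · simp [xx, yy, inner_add_left, inner_sub_left, sum_inner, h]
  · rcases i with n | j' <;> rcases j with l | l <;>
    simp [xx, yy, inner_add_left, inner_add_right, inner_sub_right, inner_sub_left, sum_inner,
      inner_sum, h, hkm]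

/-- the closed span of the blocks in `S`. -/
noncomputable def MM (S : Set ℕ) : Submodule ℂ H :=
  (Submodule.span ℂ (e '' {i | ∃ k ∈ S, ∃ o, i = some (k, o)})).topologicalClosure

lemma mem_MM (S : Set ℕ) (k : ℕ) (hk : k ∈ S) (o : Option (ℕ ⊕ ℕ)) :
    e (some (k, o)) ∈ MM e S :=
  Submodule.le_topologicalClosure _ (Submodule.subset_span ⟨_, ⟨k, hk, o, rfl⟩, rfl⟩)

lemma mem_MM_perp {S : Set ℕ} {p : H} (h : ∀ k ∈ S, ∀ o, inner ℂ (e (some (k, o))) p = 0) :
    p ∈ (MM e S)ᗮ := by
  rw [MM, Submodule.orthogonal_closure, Submodule.mem_orthogonal]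
  intro u hu
  induction hu using Submodule.span_induction with
  | mem u hu =>
    obtain ⟨i, ⟨k, hk, o, rfl⟩, rfl⟩ := hu
    exact h k hk o
  | zero => simp
  | add u v _ _ h h' => rw [inner_add_left, h, h', add_zero]
  | smul a u _ h => rw [inner_smul_left, h, mul_zero]

include he in
lemma const_zero (g : ℕ → Ix) (hg : Function.Injective g) {p : H} {z : ℂ}
    (h : ∀ k, inner ℂ (e (g k)) p + z = 0) : z = 0 := by
  have h1 := (he.comp g hg).inner_products_summable p
  have h2 : ∀ k, ‖inner ℂ ((e ∘ g) k) p‖ ^ 2 = ‖z‖ ^ 2 := fun k => by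
    have : inner ℂ (e (g k)) p = -z := eq_neg_of_add_eq_zero_left (h k)
    rw [Function.comp_apply, this, norm_neg]
  simp only [h2] at h1
  rw [summable_const_iff] at h1
  simpa using h1

include he in
lemma hx_iff (S : Set ℕ) (p : H) :
    (∀ i ∈ {i : ℕ × (ℕ ⊕ ℕ) | i.1 ∈ S}, inner ℂ (xx e i) p = 0) ↔ p ∈ (MM e S)ᗮ := by
  constructor
  · intro h
    refine mem_MM_perp e fun k hk o => ?_
    have hb : ∀ j, inner ℂ (e (some (k, some (.inr j)))) p = 0 := fun j => h (k, .inr j) hk
    have ha : ∀ n, inner ℂ (e (some (k, some (.inl n)))) p + inner ℂ (e (some (k, none))) p = 0 :=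
      fun n => by
        have := h (k, .inl n) hk
        simpa [xx, inner_sub_left, inner_add_left, sum_inner, hb] using this
    have hf : inner ℂ (e (some (k, none))) p = 0 :=
      const_zero e he (fun n => some (k, some (.inl n))) (fun a b hab => by simpa using hab) ha
    rcases o with _ | n | j
    · exact hf
    · simpa [hf] using ha n
    · exact hb j
  · rintro hp ⟨k, i⟩ hk
    have hk' : k ∈ S := hk
    refine Submodule.inner_right_of_mem_orthogonal ?_ hp
    rcases i with n | j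
    · exact Submodule.sub_mem _ (Submodule.add_mem _ (mem_MM e S k hk' _)
        (mem_MM e S k hk' _)) (Submodule.sum_mem _ fun j _ => mem_MM e S k hk' _)
    · exact mem_MM e S k hk' _

include he in
lemma hy_iff (S : Set ℕ) (p : H) :
    (∀ i ∈ {i : ℕ × (ℕ ⊕ ℕ) | i.1 ∈ S}, inner ℂ (yy e i) p = 0) ↔ p ∈ (MM e S)ᗮ := by
  constructor
  · intro h
    refine mem_MM_perp e fun k hk o => ?_
    have hb : ∀ n, inner ℂ (e (some (k, some (.inl n)))) p = 0 := fun n => h (k, .inl n) hk
    have ha : ∀ j, inner ℂ (e (some (k, some (.inr j)))) p + inner ℂ (e (some (k, none))) p = 0 :=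
      fun j => by
        have := h (k, .inr j) hk
        simpa [yy, inner_sub_left, inner_add_left, sum_inner, hb] using this
    have hf : inner ℂ (e (some (k, none))) p = 0 :=
      const_zero e he (fun n => some (k, some (.inr n))) (fun a b hab => by simpa using hab) ha
    rcases o with _ | n | j
    · exact hf
    · exact hb n
    · simpa [hf] using ha j
  · rintro hp ⟨k, i⟩ hk
    have hk' : k ∈ S := hk
    refine Submodule.inner_right_of_mem_orthogonal ?_ hp
    rcases i with n | j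
    · exact mem_MM e S k hk' _
    · exact Submodule.sub_mem _ (Submodule.add_mem _ (mem_MM e S k hk' _)
        (mem_MM e S k hk' _)) (Submodule.sum_mem _ fun j _ => mem_MM e S k hk' _)

/-- choice of the eigenvalues: distinct, small, and outside a countable set -/
lemma exists_eigenvalues (E : Set ℂ) (hE : E.Countable) (l : ℂ) (hl : l ≠ 0) (β : ℕ → ℝ)
    (hβ : ∀ n, 0 < β n) :
    ∃ s : ℕ → ℝ, (∀ n, 0 < s n ∧ s n ≤ β n ∧ l * (1 + s n) ∉ E) ∧ Function.Injective s := by
  have h1 : ∀ r : ℝ, 0 < r → ∃ t : ℝ, 0 < t ∧ t < r ∧ l * (1 + t) ∉ E := by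
    intro r hr
    have h2 : ((fun t : ℝ => l * (1 + (t : ℂ))) ⁻¹' E).Countable := by
      refine hE.preimage_of_injOn fun a _ b _ hab => ?_
      have := mul_left_cancel₀ hl hab
      exact_mod_cast add_left_cancel this
    obtain ⟨t, ht1, ht2⟩ := (h2.dense_compl ℝ).exists_mem_open (isOpen_Ioo (a := 0) (b := r))
      ⟨r / 2, by constructor <;> linarith⟩
    exact ⟨t, ht2.1, ht2.2, ht1⟩
  choose! g hg using h1
  let s : ℕ → ℝ := fun n => Nat.rec (g (β 0)) (fun k sk => g (min sk (β (k + 1)))) n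
  have hs0 : s 0 = g (β 0) := rfl
  have hss : ∀ k, s (k + 1) = g (min (s k) (β (k + 1))) := fun k => rfl
  have hpos : ∀ n, 0 < s n := by
    intro n
    induction n with
    | zero => rw [hs0]; exact (hg _ (hβ 0)).1
    | succ k ih => rw [hss]; exact (hg _ (lt_min ih (hβ _))).1
  have hanti : StrictAnti s := strictAnti_nat_of_succ_lt fun k => by
    rw [hss]
    exact (hg _ (lt_min (hpos k) (hβ _))).2.1.trans_le (min_le_left _ _)
  refine ⟨s, fun n => ⟨hpos n, ?_, ?_⟩, hanti.injective⟩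
  · rcases n with _ | k
    · exact (hg _ (hβ 0)).2.1.le
    · rw [hss]
      exact (hg _ (lt_min (hpos k) (hβ _))).2.1.le.trans (min_le_right _ _)
  · rcases n with _ | k
    · exact (hg _ (hβ 0)).2.2
    · rw [hss]
      exact (hg _ (lt_min (hpos k) (hβ _))).2.2

end Part5

section Part6

variable {H : Type*} [NormedAddCommGroup H] [InnerProductSpace ℂ H]

lemma TraceNormLE.add {A B : H →L[ℂ] H} {C D : ℝ} (hA : TraceNormLE A C)
    (hB : TraceNormLE B D) : TraceNormLE (A + B) (C + D) := by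
  obtain ⟨a, b, h1, h2, h3⟩ := hA
  obtain ⟨a', b', h1', h2', h3'⟩ := hB
  let σ : ℕ ≃ ℕ ⊕ ℕ := Equiv.natSumNatEquivNat.symm
  have hg : HasSum (fun i : ℕ ⊕ ℕ => ‖Sum.elim a a' i‖ * ‖Sum.elim b b' i‖)
      (∑' n, ‖a n‖ * ‖b n‖ + ∑' n, ‖a' n‖ * ‖b' n‖) :=
    HasSum.sum (by simpa [Function.comp_def] using h1.hasSum)
      (by simpa [Function.comp_def] using h1'.hasSum)
  have hg' := (σ.hasSum_iff (f := fun i : ℕ ⊕ ℕ => ‖Sum.elim a a' i‖ * ‖Sum.elim b b' i‖)).2 hg
  refine ⟨Sum.elim a a' ∘ σ, Sum.elim b b' ∘ σ, hg'.summable, ?_, ?_⟩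
  · exact hg'.tsum_eq.le.trans (add_le_add h2 h2')
  · intro x
    refine (σ.hasSum_iff (f := fun i => inner ℂ (Sum.elim b b' i) x • Sum.elim a a' i)).2 ?_
    exact HasSum.sum (by simpa [Function.comp_def] using h3 x)
      (by simpa [Function.comp_def] using h3' x)

lemma TraceNormLE.smul {A : H →L[ℂ] H} {C : ℝ} (hA : TraceNormLE A C) (z : ℂ) :
    TraceNormLE (z • A) (‖z‖ * C) := by
  obtain ⟨a, b, h1, h2, h3⟩ := hA
  refine ⟨fun n => z • a n, b, ?_, ?_, fun x => ?_⟩
  · simp only [norm_smul, mul_assoc]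
    exact h1.mul_left _
  · simp only [norm_smul, mul_assoc]
    rw [tsum_mul_left]
    exact mul_le_mul_of_nonneg_left h2 (norm_nonneg _)
  · have := (h3 x).const_smul z
    simpa [smul_comm z] using this

lemma TraceNormLE.neg {A : H →L[ℂ] H} {C : ℝ} (hA : TraceNormLE A C) :
    TraceNormLE (-A) C := by
  have := hA.smul (-1)
  simpa using this

lemma TraceNormLE.mono {A : H →L[ℂ] H} {C D : ℝ} (hA : TraceNormLE A C) (h : C ≤ D) :
    TraceNormLE A D := by
  obtain ⟨a, b, h1, h2, h3⟩ := hA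
  exact ⟨a, b, h1, h2.trans h, h3⟩

lemma TraceClass.exists_le {A : H →L[ℂ] H} (hA : TraceClass A) : ∃ C, TraceNormLE A C := by
  obtain ⟨a, b, h1, h3⟩ := hA
  exact ⟨_, a, b, h1, le_rfl, h3⟩

lemma TraceClass.add {A B : H →L[ℂ] H} (hA : TraceClass A) (hB : TraceClass B) :
    TraceClass (A + B) := by
  obtain ⟨C, hC⟩ := hA.exists_le
  obtain ⟨D, hD⟩ := hB.exists_le
  exact (hC.add hD).traceClass

lemma TraceClass.neg {A : H →L[ℂ] H} (hA : TraceClass A) : TraceClass (-A) := by
  obtain ⟨C, hC⟩ := hA.exists_le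
  exact hC.neg.traceClass

variable [CompleteSpace H]

lemma TraceClass.adjoint {A : H →L[ℂ] H} (hA : TraceClass A) : TraceClass (adjoint A) := by
  obtain ⟨a, b, h1, h2⟩ := hA
  refine ⟨b, a, by simpa [mul_comm] using h1, fun x => ?_⟩
  have hs : Summable (fun n => inner ℂ (a n) x • b n) := by
    refine Summable.of_norm_bounded (g := fun n => (‖a n‖ * ‖b n‖) * ‖x‖) (h1.mul_right _) ?_
    intro n
    rw [norm_smul]
    calc ‖inner ℂ (a n) x‖ * ‖b n‖ ≤ (‖a n‖ * ‖x‖) * ‖b n‖ :=
          mul_le_mul_of_nonneg_right (norm_inner_le_norm _ _) (norm_nonneg _)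
      _ = _ := by ring
  convert hs.hasSum using 1
  refine ext_inner_left ℂ fun y => ?_
  rw [ContinuousLinearMap.adjoint_inner_right]
  have e1 : HasSum (fun n => inner ℂ y (inner ℂ (a n) x • b n))
      (inner ℂ y (∑' n, inner ℂ (a n) x • b n)) := by
    exact (innerSL ℂ y).hasSum hs.hasSum
  have e2 : HasSum (fun n => inner ℂ x (inner ℂ (b n) y • a n)) (inner ℂ x (A y)) := by
    exact (innerSL ℂ x).hasSum (h2 y)
  have e3 := (e2.map (starRingEnd ℂ).toAddMonoidHom RCLike.continuous_conj)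
  have e4 : HasSum (fun n => inner ℂ y (inner ℂ (a n) x • b n)) (inner ℂ (A y) x) := by
    convert e3 using 1
    · funext n
      simp [mul_comm]
    · simp
  exact e4.unique e1

/-- a trace class perturbation of an almost isometric operator is almost isometric -/
lemma almostIsometric_add {T W : H →L[ℂ] H} (hT : AlmostIsometric T) (hW : TraceClass W) :
    AlmostIsometric (T + W) := by
  have h1 := TraceClass.add hT (((hW.comp_left (ContinuousLinearMap.adjoint T)).add
    (hW.adjoint.comp_right T)).add (hW.comp_left (ContinuousLinearMap.adjoint W))).neg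
  unfold AlmostIsometric
  convert h1 using 1
  rw [map_add]
  noncomm_ring

/-- the orthogonal projection onto the closed span of an orthonormal sequence -/
lemma exists_proj {x : ℕ → H} (hx : Orthonormal ℂ x) :
    ∃ P : H →L[ℂ] H, (∀ p, HasSum (fun n => inner ℂ (x n) p • x n) (P p)) ∧
      (∀ n, P (x n) = x n) ∧ ContinuousLinearMap.adjoint P = P := by
  set M : Submodule ℂ H := (Submodule.span ℂ (Set.range x)).topologicalClosure with hM
  have : CompleteSpace M := (Submodule.isClosed_topologicalClosure _).completeSpace_coe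
  have hmem : ∀ n, x n ∈ M := fun n =>
    Submodule.le_topologicalClosure _ (Submodule.subset_span ⟨n, rfl⟩)
  let v : ℕ → M := fun n => ⟨x n, hmem n⟩
  have hv : Orthonormal ℂ v := by
    constructor
    · intro n; exact hx.1 n
    · intro m n hmn; exact hx.2 hmn
  have hsp : (Submodule.span ℂ (Set.range v))ᗮ = ⊥ := by
    rw [Submodule.eq_bot_iff]
    intro q hq
    rw [Submodule.mem_orthogonal] at hq
    have hMp : Mᗮ = (Submodule.span ℂ (Set.range x))ᗮ := Submodule.orthogonal_closure _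
    have h1 : (q : H) ∈ Mᗮ := by
      rw [hMp, Submodule.mem_orthogonal]
      intro u hu
      induction hu using Submodule.span_induction with
      | mem u hu =>
        obtain ⟨n, rfl⟩ := hu
        exact hq (v n) (Submodule.subset_span ⟨n, rfl⟩)
      | zero => simp
      | add u v _ _ h h' => rw [inner_add_left, h, h', add_zero]
      | smul a u _ h => rw [inner_smul_left, h, mul_zero]
    have h2 := Submodule.inner_right_of_mem_orthogonal q.2 h1
    rw [inner_self_eq_zero] at h2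
    exact Subtype.ext h2
  let b := HilbertBasis.mkOfOrthogonalEqBot hv hsp
  have hb : ∀ n, (b n : H) = x n := fun n => by
    rw [show b n = v n from congrFun (HilbertBasis.coe_mkOfOrthogonalEqBot hv hsp) n]
  refine ⟨M.starProjection, fun p => ?_, fun n => Submodule.starProjection_eq_self_iff.2 (hmem n),
    ?_⟩
  · have h1 := (b.hasSum_orthogonalProjectionOnto p)
    have h2 := M.subtypeL.hasSum h1
    have h3 : M.starProjection p = M.subtypeL (M.orthogonalProjectionOnto p) := rfl
    rw [h3]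
    convert h2 using 1
    funext n
    simp [hb]
  · rw [← ContinuousLinearMap.star_eq_adjoint]
    exact (isStarProjection_starProjection (U := M)).isSelfAdjoint

/-- near every almost isometric operator there is one with a prescribed reducing part `w • 1` -/
lemma exists_reducing (hH : ¬ FiniteDimensional ℂ H) {T : H →L[ℂ] H} (hT : AlmostIsometric T)
    (ε : ℝ) (hε : 0 < ε) :
    ∃ (w : ℂ) (x : ℕ → H) (T₁ : H →L[ℂ] H), ‖w‖ = 1 ∧ Orthonormal ℂ x ∧
      TraceNormLE (T₁ - T) ε ∧ (∀ n, T₁ (x n) = w • x n) ∧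
      ∀ n, ContinuousLinearMap.adjoint T₁ (x n) = conj w • x n := by
  obtain ⟨w, hw, x, hx, hxT⟩ := exists_orthonormal_approx hH hT (ε / 4) (by positivity)
  obtain ⟨P, hP, hPx, hPa⟩ := exists_proj hx
  set B : H →L[ℂ] H := T - w • 1 with hB
  have hBa : ContinuousLinearMap.adjoint B = ContinuousLinearMap.adjoint T - conj w • 1 := by
    rw [hB, map_sub, LinearIsometryEquiv.map_smulₛₗ]
    congr 2
    rw [← ContinuousLinearMap.star_eq_adjoint, star_one]
  have hBx : ∀ p, B p = T p - w • p := fun p => rfl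
  have hBax : ∀ p, ContinuousLinearMap.adjoint B p = ContinuousLinearMap.adjoint T p - conj w • p :=
    fun p => by rw [hBa]; rfl
  have hPP : ∀ p, P (P p) = P p := by
    intro p
    have h1 := P.hasSum (hP p)
    simp only [map_smul, hPx] at h1
    exact h1.unique (hP p)
  have hgeo : HasSum (fun n : ℕ => ε / 4 * (1 / 2 : ℝ) ^ n) (ε / 2) := by
    have := hasSum_geometric_two.mul_left (ε / 4)
    rwa [show ε / 4 * 2 = ε / 2 by ring] at this
  have hU : TraceNormLE (B * P) (ε / 2) := by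
    have hle : ∀ n, ‖B (x n)‖ * ‖x n‖ ≤ ε / 4 * (1 / 2) ^ n := fun n => by
      rw [hx.1 n, mul_one, hBx]
      exact (le_add_of_nonneg_right (norm_nonneg _)).trans (hxT n)
    refine ⟨fun n => B (x n), x, Summable.of_nonneg_of_le (fun n => by positivity) hle
      hgeo.summable, ?_, fun p => ?_⟩
    · rw [← hgeo.tsum_eq]
      exact Summable.tsum_le_tsum hle (Summable.of_nonneg_of_le (fun n => by positivity) hle
        hgeo.summable) hgeo.summable
    · have h1 := B.hasSum (hP p)
      simp only [map_smul] at h1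
      exact h1
  have hV : TraceNormLE (P * B * (1 - P)) (ε / 2) := by
    have hle : ∀ n, ‖x n‖ * ‖(1 - P) (ContinuousLinearMap.adjoint B (x n))‖
        ≤ ε / 4 * (1 / 2) ^ n := fun n => by
      rw [hx.1 n, one_mul]
      have h1 : ‖(1 - P) (ContinuousLinearMap.adjoint B (x n))‖ ≤
          ‖ContinuousLinearMap.adjoint B (x n)‖ := by
        set q := ContinuousLinearMap.adjoint B (x n)
        have h2 : (1 - P) q = q - P q := rfl
        have h3 : inner ℂ (P q) (q - P q) = 0 := by
          rw [← adjoint_inner_right, hPa, map_sub, hPP, sub_self, inner_zero_right]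
        have h4 := norm_add_sq_eq_norm_sq_add_norm_sq_of_inner_eq_zero (𝕜 := ℂ) _ _ h3
        rw [add_sub_cancel] at h4
        rw [h2]
        refine (sq_le_sq₀ (norm_nonneg _) (norm_nonneg _)).1 ?_
        nlinarith [mul_self_nonneg ‖P q‖]
      refine h1.trans ?_
      rw [hBax]
      exact (le_add_of_nonneg_left (norm_nonneg _)).trans (hxT n)
    refine ⟨x, fun n => (1 - P) (ContinuousLinearMap.adjoint B (x n)),
      Summable.of_nonneg_of_le (fun n => by positivity) hle hgeo.summable, ?_, fun p => ?_⟩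
    · rw [← hgeo.tsum_eq]
      exact Summable.tsum_le_tsum hle (Summable.of_nonneg_of_le (fun n => by positivity) hle
        hgeo.summable) hgeo.summable
    · have h1 := hP (B ((1 - P) p))
      have h2 : ∀ n, inner ℂ ((1 - P) (ContinuousLinearMap.adjoint B (x n))) p =
          inner ℂ (x n) (B ((1 - P) p)) := by
        intro n
        have h3 : ContinuousLinearMap.adjoint (1 - P) = 1 - P := by
          rw [map_sub, hPa]
          congr 1
          rw [← ContinuousLinearMap.star_eq_adjoint, star_one]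
        rw [← adjoint_inner_left B, ← h3, adjoint_inner_left, h3]
      simp only [h2]
      exact h1
  refine ⟨w, x, T - B * P - P * B * (1 - P), hw, hx, ?_, fun n => ?_, fun n => ?_⟩
  · have := (hU.neg.add hV.neg).mono (show ε / 2 + ε / 2 ≤ ε by linarith)
    convert this using 1
    abel
  · have h1 : (T - B * P - P * B * (1 - P)) (x n) =
        T (x n) - B (P (x n)) - P (B (x n - P (x n))) := rfl
    rw [h1, hPx, sub_self, map_zero, map_zero, sub_zero, hBx]
    abel
  · have h0 : ContinuousLinearMap.adjoint (1 - P) = 1 - P := by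
      rw [map_sub, hPa]
      congr 1
      rw [← ContinuousLinearMap.star_eq_adjoint, star_one]
    have h1 : ContinuousLinearMap.adjoint (T - B * P - P * B * (1 - P)) =
        ContinuousLinearMap.adjoint T - P * ContinuousLinearMap.adjoint B
          - (1 - P) * (ContinuousLinearMap.adjoint B * P) := by
      have e1 : ContinuousLinearMap.adjoint (B * P) = P * ContinuousLinearMap.adjoint B := by
        rw [show B * P = B.comp P from rfl, adjoint_comp, hPa]; rfl
      have e2 : ContinuousLinearMap.adjoint (P * B * (1 - P)) =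
          (1 - P) * (ContinuousLinearMap.adjoint B * P) := by
        rw [show P * B * (1 - P) = (P.comp B).comp (1 - P) from rfl, adjoint_comp, adjoint_comp,
          hPa, h0]; rfl
      rw [map_sub, map_sub, e1, e2]
    have h2 : (ContinuousLinearMap.adjoint T - P * ContinuousLinearMap.adjoint B
          - (1 - P) * (ContinuousLinearMap.adjoint B * P)) (x n) =
        ContinuousLinearMap.adjoint T (x n) - P (ContinuousLinearMap.adjoint B (x n)) -
          (ContinuousLinearMap.adjoint B (P (x n)) -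
            P (ContinuousLinearMap.adjoint B (P (x n)))) := rfl
    rw [h1, h2, hPx, hBax]
    abel

end Part6

/-- Let `T₀` be an arbitrary almost isometric operator on an infinite-dimensional complex Hilbert
space. Arbitrarily close to `T₀` in trace norm there is an almost isometric operator `T` whose
bicommutant is so much larger than the closed span `R(T)` of the resolvents that the quotient
is not separable: it contains the classes of a family of orthogonal projections `P S`, indexed by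
the sets `S` of natural numbers, with mutual distances at least `1/2` modulo `R(T)`. -/
theorem result (H : Type*) [NormedAddCommGroup H] [InnerProductSpace ℂ H] [CompleteSpace H]
    (hH : ¬ FiniteDimensional ℂ H) (T₀ : H →L[ℂ] H) (hT₀ : AlmostIsometric T₀)
    (ε : ℝ) (hε : 0 < ε) :
    ∃ T : H →L[ℂ] H, AlmostIsometric T ∧ TraceNormLE (T - T₀) ε ∧
      ∃ P : Set ℕ → (H →L[ℂ] H),
        (∀ S, IsStarProjection (P S) ∧ P S ∈ bicommutant T) ∧
        (∀ S, S.Nonempty → P S ∉ resolventSpace T) ∧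
        ∀ S S', S ≠ S' → ∀ R ∈ resolventSpace T, 1 / 2 ≤ ‖P S - P S' - R‖ := by
  classical
  obtain ⟨l, x', T₁, hl, hx', hT₁, hT₁x, hT₁y⟩ := exists_reducing hH hT₀ (ε / 2) (by positivity)
  have hAI₁ : AlmostIsometric T₁ := by
    have := almostIsometric_add hT₀ hT₁.traceClass
    rwa [add_sub_cancel] at this
  have hl0 : l ≠ 0 := by rw [← norm_ne_zero_iff, hl]; exact one_ne_zero
  -- the orthonormal family
  obtain ⟨ψ⟩ : Nonempty (Ix ≃ ℕ) := inferInstance
  obtain ⟨σ⟩ : Nonempty (ℕ ≃ ℕ × (ℕ ⊕ ℕ)) := inferInstance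
  set e : Ix → H := fun i => x' (ψ i) with he'
  have he : Orthonormal ℂ e := hx'.comp _ ψ.injective
  have heT : ∀ i, T₁ (e i) = l • e i := fun i => hT₁x _
  have heT' : ∀ i, ContinuousLinearMap.adjoint T₁ (e i) = conj l • e i := fun i => hT₁y _
  have hxxT : ∀ i, T₁ (xx e i) = l • xx e i := by
    rintro ⟨k, n | j⟩
    · simp only [xx, Sum.elim_inl, map_sub, map_add, map_sum, heT, smul_sub, smul_add,
        Finset.smul_sum]
    · simp only [xx, Sum.elim_inr, heT]
  have hyyT : ∀ i, ContinuousLinearMap.adjoint T₁ (yy e i) = conj l • yy e i := by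
    rintro ⟨k, n | j⟩
    · simp only [yy, Sum.elim_inl, heT']
    · simp only [yy, Sum.elim_inr, map_sub, map_add, map_sum, heT', smul_sub, smul_add,
        Finset.smul_sum]
  -- the eigenvalues
  set E : Set ℂ := {z : ℂ | 1 < ‖z‖ ∧ ∃ v ≠ 0, T₁ v = z • v} ∪
    (starRingEnd ℂ) ⁻¹' {z : ℂ | 1 < ‖z‖ ∧ ∃ v ≠ 0, ContinuousLinearMap.adjoint T₁ v = z • v}
    with hE
  have hEc : E.Countable := (countable_eig hAI₁).union
    ((countable_eig_adj hAI₁).preimage_of_injOn (starRingEnd ℂ).injective.injOn)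
  set β : ℕ → ℝ := fun n => ε / 4 * (1 / 2) ^ n / (‖xx e (σ n)‖ * ‖yy e (σ n)‖ + 1) with hβ
  have hβ0 : ∀ n, 0 < β n := fun n => by positivity
  obtain ⟨s', hs', hs'i⟩ := exists_eigenvalues E hEc l hl0 β hβ0
  set s : ℕ × (ℕ ⊕ ℕ) → ℝ := fun i => s' (σ.symm i) with hs
  have hspos : ∀ i, 0 < s i := fun i => (hs' _).1
  have hgeo : HasSum (fun n : ℕ => ε / 4 * (1 / 2 : ℝ) ^ n) (ε / 2) := by
    have := hasSum_geometric_two.mul_left (ε / 4)
    rwa [show ε / 4 * 2 = ε / 2 by ring] at this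
  have hbound : ∀ n, |s (σ n)| * ‖xx e (σ n)‖ * ‖yy e (σ n)‖ ≤ ε / 4 * (1 / 2) ^ n := by
    intro n
    have h1 : s (σ n) ≤ β n := by
      simp only [hs, Equiv.symm_apply_apply]
      exact (hs' n).2.1
    rw [abs_of_pos (hspos _), mul_assoc]
    calc s (σ n) * (‖xx e (σ n)‖ * ‖yy e (σ n)‖) ≤ β n * (‖xx e (σ n)‖ * ‖yy e (σ n)‖ + 1) :=
          mul_le_mul h1 (by linarith) (by positivity) (hβ0 n).le
      _ = _ := by rw [hβ]; field_simp
  have hsummN : Summable (fun n => |s (σ n)| * ‖xx e (σ n)‖ * ‖yy e (σ n)‖) :=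
    Summable.of_nonneg_of_le (fun n => by positivity) hbound hgeo.summable
  have hsumm : Summable (fun i => |s i| * ‖xx e i‖ * ‖yy e i‖) :=
    (σ.summable_iff (f := fun i => |s i| * ‖xx e i‖ * ‖yy e i‖)).1 hsummN
  have hsum : ∑' i, |s i| * ‖xx e i‖ * ‖yy e i‖ ≤ ε / 2 := by
    rw [← σ.tsum_eq (fun i => |s i| * ‖xx e i‖ * ‖yy e i‖), ← hgeo.tsum_eq]
    exact Summable.tsum_le_tsum hbound hsummN hgeo.summable
  have hnorm : ∀ i, 1 < ‖l * (1 + (s i : ℂ))‖ := by
    intro i
    have h1 : ‖(1 + (s i : ℂ))‖ = 1 + s i := by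
      rw [← Complex.ofReal_one, ← Complex.ofReal_add, Complex.norm_real, Real.norm_eq_abs,
        abs_of_pos (by linarith [hspos i])]
    rw [norm_mul, hl, one_mul, h1]
    linarith [hspos i]
  have hnE : ∀ i, l * (1 + (s i : ℂ)) ∉ E := fun i => (hs' (σ.symm i)).2.2
  have hd : Data (xx e) (yy e) s T₁ l :=
    { hs := hsumm
      hbi := biorth e he
      hs0 := fun i => (hspos i).ne'
      hsi := fun i j hij => σ.symm.injective (hs'i hij)
      hx := hxxT
      hy := hyyT
      hE := fun i v hv => by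
        by_contra hv0
        exact hnE i (Or.inl ⟨hnorm i, v, hv0, hv⟩)
      hE' := fun i v hv => by
        by_contra hv0
        refine hnE i (Or.inr ⟨?_, v, hv0, ?_⟩)
        · rw [Complex.norm_conj]; exact hnorm i
        · rw [hv]
          simp }
  set T := T₁ + l • KK (xx e) (yy e) s with hT
  have hTT₀ : TraceNormLE (T - T₀) ε := by
    have h1 := (traceNormLE_KK (xx e) (yy e) s hsumm σ (ε / 2) hsum).smul l
    have h2 := (hT₁.add h1).mono (show ε / 2 + ‖l‖ * (ε / 2) ≤ ε by rw [hl]; linarith)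
    convert h2 using 1
    rw [hT]; abel
  have hAI : AlmostIsometric T := by
    have := almostIsometric_add hT₀ hTT₀.traceClass
    rwa [add_sub_cancel] at this
  -- the projections
  have hcomp : ∀ S, CompleteSpace (MM e S) := fun S =>
    (Submodule.isClosed_topologicalClosure _).completeSpace_coe
  set P : Set ℕ → (H →L[ℂ] H) := fun S => (MM e S).starProjection with hP
  -- the functionals
  have h1 := ite_e e he
  have hΦ : ∀ j : ℕ, ∀ R ∈ resolventSpace T,
      inner ℂ (e (some (j, none))) (R (e (some (j, none)))) =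
        inner ℂ (e none) (R (e none)) := by
    intro j R hR
    refine hd.functional_resolventSpace _ _ (by rw [h1]; simp) (by rw [h1]; simp) (heT' _)
      (heT _) ?_ ?_ hR
    · rintro ⟨k, n | m⟩ <;> simp [yy, h1, inner_add_left, inner_sub_left, sum_inner]
    · rintro ⟨k, n | m⟩
      · right; simp [yy, h1]
      · left; simp [xx, h1]
  have hPf : ∀ S (j : ℕ), inner ℂ (e (some (j, none))) (P S (e (some (j, none)))) =
      if j ∈ S then (1 : ℂ) else 0 := by
    intro S j
    by_cases hj : j ∈ S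
    · rw [if_pos hj, hP]
      simp only
      rw [Submodule.starProjection_eq_self_iff.2 (mem_MM e S j hj none), h1, if_pos rfl]
    · rw [if_neg hj, hP]
      simp only
      rw [(Submodule.starProjection_apply_eq_zero_iff (MM e S)).2, inner_zero_right]
      refine mem_MM_perp e fun k hk o => ?_
      rw [h1, if_neg]
      intro h
      have : k = j := by
        have := Option.some.inj h
        exact congrArg Prod.fst this
      exact hj (this ▸ hk)
  have hPc : ∀ S, P S (e none) = 0 := by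
    intro S
    refine (Submodule.starProjection_apply_eq_zero_iff (MM e S)).2 ?_
    refine mem_MM_perp e fun k hk o => ?_
    rw [h1, if_neg]
    simp
  refine ⟨T, hAI, hTT₀, P, fun S => ⟨isStarProjection_starProjection, ?_⟩, ?_, ?_⟩
  · exact hd.proj_mem {i : ℕ × (ℕ ⊕ ℕ) | i.1 ∈ S} (MM e S) (hx_iff e he S) (hy_iff e he S)
  · rintro S ⟨j, hj⟩ hR
    have := hΦ j _ hR
    rw [hPf, if_pos hj, hPc, inner_zero_right] at this
    exact one_ne_zero this
  · intro S S' hSS' R hR
    obtain ⟨j, hj⟩ : ∃ j, ¬ (j ∈ S ↔ j ∈ S') := by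
      by_contra hcon
      push Not at hcon
      exact hSS' (Set.ext hcon)
    set f := e (some (j, none)) with hf
    set c := e none with hc
    set X := P S - P S' - R with hX
    have hfn : ‖f‖ = 1 := he.1 _
    have hcn : ‖c‖ = 1 := he.1 _
    have h2 : inner ℂ f (X f) - inner ℂ c (X c) =
        (if j ∈ S then (1 : ℂ) else 0) - (if j ∈ S' then (1 : ℂ) else 0) := by
      have e1 : X f = P S f - P S' f - R f := rfl
      have e2 : X c = P S c - P S' c - R c := rfl
      rw [e1, e2, inner_sub_right, inner_sub_right, hPf, hPf, hPc, hPc, hΦ j R hR, sub_zero,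
        zero_sub, inner_neg_right]
      ring
    have h3 : ‖inner ℂ f (X f) - inner ℂ c (X c)‖ = 1 := by
      rw [h2]
      by_cases ha : j ∈ S <;> by_cases hb : j ∈ S' <;> simp_all
    have h4 : ‖inner ℂ f (X f)‖ ≤ ‖X‖ := by
      calc _ ≤ ‖f‖ * ‖X f‖ := norm_inner_le_norm _ _
        _ ≤ ‖f‖ * (‖X‖ * ‖f‖) := mul_le_mul_of_nonneg_left (X.le_opNorm _) (norm_nonneg _)
        _ = ‖X‖ := by rw [hfn]; ring
    have h5 : ‖inner ℂ c (X c)‖ ≤ ‖X‖ := by
      calc _ ≤ ‖c‖ * ‖X c‖ := norm_inner_le_norm _ _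
        _ ≤ ‖c‖ * (‖X‖ * ‖c‖) := mul_le_mul_of_nonneg_left (X.le_opNorm _) (norm_nonneg _)
        _ = ‖X‖ := by rw [hcn]; ring
    have h6 := norm_sub_le (inner ℂ f (X f)) (inner ℂ c (X c))
    rw [h3] at h6
    linarith

end Pool.Agent.Results.MP_9e58cf_an.DenseFailure
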